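import Mathlib

/-!
Class-preserving automorphisms of finite groups: definitions and the surjectivity lemma.
-/

set_option autoImplicit false

namespace Pool.Agent.Helper832.AutC

/-- the group of class-preserving automorphisms of `G` -/
def AutC (G : Type) [Group G] : Subgroup (MulAut G) where
  carrier := {α | ∀ x : G, IsConj x (α x)}
  mul_mem' := by
    intro α β hα hβ x
    exact (hβ x).trans (hα (β x))
  one_mem' := fun x => IsConj.refl x
  inv_mem' := by
    intro α hα x
    have h := hα (α⁻¹ x)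
    rw [MulAut.apply_inv_self] at h
    exact h.symm

/-- `x` is a minimal generating family: it generates, and no proper part of it generates -/
structure IsMinGen {G : Type} [Group G] {d : ℕ} (x : Fin d → G) : Prop where
  gen : Subgroup.closure (Set.range x) = ⊤
  minimal : ∀ s : Set (Fin d), s ≠ Set.univ → Subgroup.closure (x '' s) ≠ ⊤

/-- equality in `|Aut_c(G)| ≤ ∏ |x_i^G|` -/
def Attains {G : Type} [Group G] {d : ℕ} (x : Fin d → G) : Prop :=
  Nat.card (AutC G) = ∏ i, Nat.card {y : G // IsConj (x i) y}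

/-- `x_1^{a_1} ⋯ x_d^{a_d}` -/
def wd {G : Type} [Group G] {d : ℕ} (x : Fin d → G) (a : Fin d → ℤ) : G :=
  (List.ofFn fun i => x i ^ a i).prod

/-- every choice of conjugates is realised -/
def SurjP {G : Type} [Group G] {d : ℕ} (x : Fin d → G) : Prop :=
  ∀ y : Fin d → G, (∀ i, IsConj (x i) (y i)) → ∃ α ∈ AutC G, ∀ i, α (x i) = y i

theorem attains_iff {G : Type} [Group G] [Finite G] {d : ℕ} (x : Fin d → G)
    (hx : Subgroup.closure (Set.range x) = ⊤) : Attains x ↔ SurjP x := by
  classical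
  let Φ : AutC G → ((i : Fin d) → {y : G // IsConj (x i) y}) :=
    fun α i => ⟨α.1 (x i), α.2 (x i)⟩
  have hinj : Function.Injective Φ := by
    intro α β h
    apply Subtype.ext
    have h1 : (α.1 : G →* G) = (β.1 : G →* G) := by
      refine MonoidHom.eq_of_eqOn_dense hx ?_
      rintro _ ⟨i, rfl⟩
      have := congrFun h i
      exact congrArg Subtype.val this
    exact MulEquiv.ext (fun g => DFunLike.congr_fun h1 g)
  have hfin : Finite ((i : Fin d) → {y : G // IsConj (x i) y}) := inferInstance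
  have hcard : Nat.card ((i : Fin d) → {y : G // IsConj (x i) y})
      = ∏ i, Nat.card {y : G // IsConj (x i) y} := Nat.card_pi
  constructor
  · intro h y hy
    have h1 : Nat.card ((i : Fin d) → {y : G // IsConj (x i) y}) ≤ Nat.card (AutC G) := by
      rw [hcard]; exact h.ge
    have hbij : Function.Bijective Φ := hinj.bijective_of_nat_card_le h1
    obtain ⟨α, hα⟩ := hbij.2 (fun i => ⟨y i, hy i⟩)
    exact ⟨α.1, α.2, fun i => congrArg Subtype.val (congrFun hα i)⟩
  · intro h
    have hbij : Function.Bijective Φ := by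
      refine ⟨hinj, fun y => ?_⟩
      obtain ⟨α, hα, hα'⟩ := h (fun i => (y i).1) (fun i => (y i).2)
      exact ⟨⟨α, hα⟩, funext (fun i => Subtype.ext (hα' i))⟩
    unfold Attains
    rw [← hcard]
    exact Nat.card_eq_of_bijective Φ hbij

/-- two generators with `G = C(x₁) C(x₂)` -/
theorem surjP_two {G : Type} [Group G] (x : Fin 2 → G)
    (h : ∀ g : G, ∃ u v : G, g = u * v ∧ u * x 0 = x 0 * u ∧ v * x 1 = x 1 * v) : SurjP x := by
  intro y hy
  obtain ⟨g, hg⟩ := isConj_iff.mp (hy 0)
  obtain ⟨k, hk⟩ := isConj_iff.mp (hy 1)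
  obtain ⟨u, v, huv, hu, hv⟩ := h (g⁻¹ * k)
  refine ⟨MulAut.conj (g * u), fun z => ?_, fun i => ?_⟩
  · exact isConj_iff.mpr ⟨g * u, rfl⟩
  · have h0 : u * x 0 * u⁻¹ = x 0 := by rw [hu]; group
    have h1 : g * u = k * v⁻¹ := by
      have : k = g * (u * v) := by rw [← huv]; group
      rw [this]; group
    fin_cases i
    · show (g * u) * x 0 * (g * u)⁻¹ = y 0
      rw [← hg]
      calc g * u * x 0 * (g * u)⁻¹ = g * (u * x 0 * u⁻¹) * g⁻¹ := by group
        _ = g * x 0 * g⁻¹ := by rw [h0]
    · show (g * u) * x 1 * (g * u)⁻¹ = y 1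
      rw [← hk, h1]
      have h2 : v⁻¹ * x 1 * v = x 1 := by rw [mul_assoc, ← hv]; group
      calc k * v⁻¹ * x 1 * (k * v⁻¹)⁻¹ = k * (v⁻¹ * x 1 * v) * k⁻¹ := by group
        _ = k * x 1 * k⁻¹ := by rw [h2]

end Pool.Agent.Helper832.AutC
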