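import Mathlib
import Pool.Agent.Helper832.AutC.Base

/-!
Minimal generating families of finite p-groups have bounded length (Burnside basis theorem).
-/

set_option autoImplicit false

open scoped commutatorElement

namespace Pool.Agent.Helper832.AutC

section Elem

variable {V : Type} [CommGroup V]

theorem exists_exp {d : ℕ} (x : Fin d → V)
    (u : V) (hu : u ∈ Subgroup.closure (Set.range x)) :
    ∃ a : Fin d → ℤ, u = ∏ i, x i ^ a i := by
  classical
  induction hu using Subgroup.closure_induction with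
  | mem v hv =>
    obtain ⟨i, rfl⟩ := hv
    refine ⟨Pi.single i 1, ?_⟩
    rw [Finset.prod_eq_single i]
    · rw [Pi.single_eq_same, zpow_one]
    · intro j _ hj
      rw [Pi.single_eq_of_ne hj, zpow_zero]
    · intro h; exact absurd (Finset.mem_univ i) h
  | one => exact ⟨0, by simp⟩
  | mul v w _ _ hv hw =>
    obtain ⟨a, ha⟩ := hv
    obtain ⟨b, hb⟩ := hw
    refine ⟨a + b, ?_⟩
    rw [ha, hb, ← Finset.prod_mul_distrib]
    refine Finset.prod_congr rfl (fun i _ => ?_)
    rw [Pi.add_apply, zpow_add]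
  | inv v _ hv =>
    obtain ⟨a, ha⟩ := hv
    refine ⟨-a, ?_⟩
    rw [ha, ← Finset.prod_inv_distrib]
    refine Finset.prod_congr rfl (fun i _ => ?_)
    rw [Pi.neg_apply, zpow_neg]

theorem card_le_of_gen [Finite V] {p : ℕ} [hp : Fact p.Prime] (hexp : ∀ v : V, v ^ p = 1) {d : ℕ}
    (x : Fin d → V) (hx : Subgroup.closure (Set.range x) = ⊤) : Nat.card V ≤ p ^ d := by
  classical
  haveI : NeZero p := ⟨hp.out.ne_zero⟩
  let f : (Fin d → Fin p) → V := fun a => ∏ i, x i ^ ((a i : Fin p) : ℕ)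
  have hf : Function.Surjective f := by
    intro u
    obtain ⟨a, ha⟩ := exists_exp x u (by rw [hx]; exact Subgroup.mem_top u)
    have hp0 : (0 : ℤ) < p := by exact_mod_cast hp.out.pos
    refine ⟨fun i => ⟨(a i % p).toNat, ?_⟩, ?_⟩
    · have h1 := Int.emod_nonneg (a i) hp0.ne'
      have h2 := Int.emod_lt_of_pos (a i) hp0
      omega
    · rw [ha]
      refine Finset.prod_congr rfl (fun i _ => ?_)
      show x i ^ ((a i % p).toNat) = x i ^ a i
      have h1 := Int.emod_nonneg (a i) hp0.ne'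
      rw [← zpow_natCast, Int.toNat_of_nonneg h1]
      conv_rhs => rw [← Int.emod_add_mul_ediv (a i) p]
      rw [zpow_add, zpow_mul, zpow_natCast, hexp, one_zpow, mul_one]
  have h := Nat.card_le_card_of_surjective f hf
  rwa [Nat.card_eq_fintype_card (α := Fin d → Fin p), Fintype.card_fun, Fintype.card_fin,
    Fintype.card_fin] at h

theorem le_card_of_min [Finite V] {p : ℕ} [hp : Fact p.Prime] (hexp : ∀ v : V, v ^ p = 1) {d : ℕ}
    (x : Fin d → V) (hx : ∀ j, x j ∉ Subgroup.closure (x '' {j}ᶜ)) : p ^ d ≤ Nat.card V := by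
  classical
  let f : (Fin d → Fin p) → V := fun a => ∏ i, x i ^ ((a i : Fin p) : ℕ)
  have hf : Function.Injective f := by
    intro a b hab
    by_contra hne
    obtain ⟨j, hj⟩ := Function.ne_iff.mp hne
    apply hx j
    have h1 : ∀ c : Fin d → Fin p, f c = x j ^ ((c j : Fin p) : ℕ)
        * ∏ i ∈ Finset.univ.erase j, x i ^ ((c i : Fin p) : ℕ) := fun c =>
      (Finset.mul_prod_erase Finset.univ (fun i => x i ^ ((c i : Fin p) : ℕ))
        (Finset.mem_univ j)).symm
    have h2 : ∀ c : Fin d → Fin p, ∏ i ∈ Finset.univ.erase j, x i ^ ((c i : Fin p) : ℕ)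
        ∈ Subgroup.closure (x '' {j}ᶜ) := by
      intro c
      refine Subgroup.prod_mem _ (fun i hi => ?_)
      have h0 : x i ∈ Subgroup.closure (x '' {j}ᶜ) :=
        Subgroup.subset_closure ⟨i, Finset.ne_of_mem_erase hi, rfl⟩
      exact pow_mem h0 _
    rw [h1 a, h1 b] at hab
    have h3 : x j ^ (((a j : Fin p) : ℤ) - ((b j : Fin p) : ℤ)) ∈ Subgroup.closure (x '' {j}ᶜ) := by
      have e1 : x j ^ (((a j : Fin p) : ℤ) - ((b j : Fin p) : ℤ))
          = (∏ i ∈ Finset.univ.erase j, x i ^ ((b i : Fin p) : ℕ))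
            * (∏ i ∈ Finset.univ.erase j, x i ^ ((a i : Fin p) : ℕ))⁻¹ := by
        rw [eq_mul_inv_iff_mul_eq, zpow_sub, zpow_natCast, zpow_natCast, mul_assoc,
          mul_comm (x j ^ ((b j : Fin p) : ℕ))⁻¹, ← mul_assoc, hab, mul_comm, inv_mul_cancel_left]
      rw [e1]
      exact mul_mem (h2 b) (inv_mem (h2 a))
    have h4 : IsCoprime (((a j : Fin p) : ℤ) - ((b j : Fin p) : ℤ)) (p : ℤ) := by
      rw [isCoprime_comm]
      refine (Prime.coprime_iff_not_dvd (Nat.prime_iff_prime_int.mp hp.out)).mpr ?_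
      intro hdvd
      apply hj
      apply Fin.ext
      have ha := (a j).2
      have hb := (b j).2
      have h5 := Int.eq_zero_of_abs_lt_dvd hdvd (by rw [abs_lt]; constructor <;> omega)
      omega
    obtain ⟨r, s, hrs⟩ := h4
    have h5 : x j = (x j ^ (((a j : Fin p) : ℤ) - ((b j : Fin p) : ℤ))) ^ r := by
      rw [← zpow_mul]
      have e2 : ((((a j : Fin p) : ℤ) - ((b j : Fin p) : ℤ)) * r) = 1 + (p : ℤ) * (-s) := by
        linarith
      rw [e2, zpow_add, zpow_one, zpow_mul, zpow_natCast, hexp, one_zpow, mul_one]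
    rw [h5]
    exact zpow_mem h3 r
  have h := Nat.card_le_card_of_injective f hf
  rwa [Nat.card_eq_fintype_card (α := Fin d → Fin p), Fintype.card_fun, Fintype.card_fin,
    Fintype.card_fin] at h

end Elem

theorem coatom_facts {p : ℕ} [hp : Fact p.Prime] {G : Type} [Group G] [Finite G]
    (hG : IsPGroup p G) (M : Subgroup G) (hM : IsCoatom M) :
    (∀ a b : G, ⁅a, b⁆ ∈ M) ∧ ∀ a : G, a ^ p ∈ M := by
  haveI : Group.IsNilpotent G := hG.isNilpotent
  have hn : M.Normal :=
    (Group.isNilpotent_of_finite_tfae (G := G)).out 0 2 rfl rfl |>.mp ‹_› M hM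
  have hsub : ∀ H : Subgroup (G ⧸ M), H = ⊥ ∨ H = ⊤ := by
    intro H
    have h1 : M ≤ H.comap (QuotientGroup.mk' M) := by
      intro m hm
      show (QuotientGroup.mk' M m) ∈ H
      have e1 : QuotientGroup.mk' M m = 1 := (QuotientGroup.eq_one_iff m).mpr hm
      rw [e1]
      exact one_mem H
    have h3 : (H.comap (QuotientGroup.mk' M)).map (QuotientGroup.mk' M) = H :=
      Subgroup.map_comap_eq_self_of_surjective (QuotientGroup.mk'_surjective M) H
    rcases hM.le_iff.mp h1 with h2 | h2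
    · right
      rw [← h3, h2, Subgroup.map_top_of_surjective _ (QuotientGroup.mk'_surjective M)]
    · left
      rw [← h3, h2, eq_bot_iff]
      rintro _ ⟨m, hm, rfl⟩
      exact (QuotientGroup.eq_one_iff m).mpr hm
  have hnt : Nontrivial (G ⧸ M) := by
    rw [QuotientGroup.nontrivial_iff]
    exact hM.1
  have hQ : IsPGroup p (G ⧸ M) := hG.to_quotient M
  haveI := hQ.center_nontrivial
  obtain ⟨⟨c, hc⟩, hc1⟩ := exists_ne (1 : Subgroup.center (G ⧸ M))
  have hc1' : c ≠ 1 := fun h => hc1 (Subtype.ext h)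
  have hctop : Subgroup.zpowers c = ⊤ := by
    rcases hsub (Subgroup.zpowers c) with h | h
    · exact absurd (Subgroup.zpowers_eq_bot.mp h) hc1'
    · exact h
  have hall : ∀ q : G ⧸ M, ∃ k : ℤ, c ^ k = q := by
    intro q
    have : q ∈ Subgroup.zpowers c := by rw [hctop]; exact Subgroup.mem_top q
    exact this
  have hcp : c ^ p = 1 := by
    by_contra hne
    have h1 : Subgroup.zpowers (c ^ p) = ⊤ := by
      rcases hsub (Subgroup.zpowers (c ^ p)) with h | h
      · exact absurd (Subgroup.zpowers_eq_bot.mp h) hne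
      · exact h
    have h2 : c ∈ Subgroup.zpowers (c ^ p) := by rw [h1]; exact Subgroup.mem_top c
    obtain ⟨k, hk⟩ := h2
    have hk' : (c ^ p) ^ k = c := hk
    have h3 : c ^ ((p : ℤ) * k - 1) = 1 := by
      rw [zpow_sub, zpow_mul, zpow_natCast, hk', zpow_one, mul_inv_cancel]
    have h4 : (orderOf c : ℤ) ∣ (p : ℤ) * k - 1 := orderOf_dvd_iff_zpow_eq_one.mpr h3
    have h5 : (p : ℤ) ∣ (p : ℤ) * k - 1 :=
      (Int.natCast_dvd_natCast.mpr (hQ.dvd_orderOf hc1')).trans h4
    have h6 : (p : ℤ) ∣ 1 := by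
      have h7 := dvd_sub (dvd_mul_right (p : ℤ) k) h5
      rwa [sub_sub_cancel] at h7
    have h8 : p ∣ 1 := by exact_mod_cast h6
    exact hp.out.one_lt.ne' (Nat.dvd_one.mp h8)
  have hmem : ∀ a : G, ((a : G ⧸ M) = 1) → a ∈ M := fun a h => (QuotientGroup.eq_one_iff a).mp h
  constructor
  · intro a b
    apply hmem
    obtain ⟨k, hk⟩ := hall (a : G ⧸ M)
    obtain ⟨l, hl⟩ := hall (b : G ⧸ M)
    have h1 : ((⁅a, b⁆ : G) : G ⧸ M) = ⁅(a : G ⧸ M), (b : G ⧸ M)⁆ := rfl
    rw [h1, ← hk, ← hl, commutatorElement_eq_one_iff_mul_comm, ← zpow_add, ← zpow_add, add_comm]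
  · intro a
    apply hmem
    obtain ⟨k, hk⟩ := hall (a : G ⧸ M)
    have h1 : ((a ^ p : G) : G ⧸ M) = (a : G ⧸ M) ^ p := rfl
    rw [h1, ← hk, ← zpow_natCast, ← zpow_mul, mul_comm, zpow_mul, zpow_natCast, hcp, one_zpow]

theorem frattini_facts {p : ℕ} [hp : Fact p.Prime] {G : Type} [Group G] [Finite G]
    (hG : IsPGroup p G) :
    (∀ a b : G, ⁅a, b⁆ ∈ frattini G) ∧ ∀ a : G, a ^ p ∈ frattini G := by
  have key : ∀ g : G, (∀ M : Subgroup G, IsCoatom M → g ∈ M) → g ∈ frattini G := by
    intro g h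
    have h1 : Subgroup.zpowers g ≤ frattini G := by
      refine le_iInf₂ (fun M hM => ?_)
      rw [Subgroup.zpowers_le]
      exact h M hM
    exact h1 (Subgroup.mem_zpowers g)
  exact ⟨fun a b => key _ (fun M hM => (coatom_facts hG M hM).1 a b),
    fun a => key _ (fun M hM => (coatom_facts hG M hM).2 a)⟩

/-- a minimal generating family of a finite p-group is not longer than a generating family -/
theorem minGen_le {p : ℕ} [hp : Fact p.Prime] {G : Type} [Group G] [Finite G]
    (hG : IsPGroup p G) {d n : ℕ} (x : Fin d → G) (hx : IsMinGen x) (y : Fin n → G)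
    (hy : Subgroup.closure (Set.range y) = ⊤) : d ≤ n := by
  obtain ⟨hF1, hF2⟩ := frattini_facts hG
  let V := G ⧸ frattini G
  letI : CommGroup V :=
    { (inferInstance : Group (G ⧸ frattini G)) with
      mul_comm := by
        intro a b
        obtain ⟨a, rfl⟩ := QuotientGroup.mk'_surjective (frattini G) a
        obtain ⟨b, rfl⟩ := QuotientGroup.mk'_surjective (frattini G) b
        rw [← commutatorElement_eq_one_iff_mul_comm, ← map_commutatorElement]
        exact (QuotientGroup.eq_one_iff _).mpr (hF1 a b) }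
  let π : G →* V := QuotientGroup.mk' (frattini G)
  have hπs : Function.Surjective π := QuotientGroup.mk'_surjective (frattini G)
  have hexp : ∀ v : V, v ^ p = 1 := by
    intro v
    obtain ⟨a, rfl⟩ := hπs v
    rw [← map_pow]
    exact (QuotientGroup.eq_one_iff _).mpr (hF2 a)
  have h1 : Nat.card V ≤ p ^ n := by
    refine card_le_of_gen hexp (fun i => π (y i)) ?_
    have e1 : Set.range (fun i => π (y i)) = π '' Set.range y := Set.range_comp π y
    rw [e1, ← MonoidHom.map_closure, hy, Subgroup.map_top_of_surjective _ hπs]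
  have h2 : p ^ d ≤ Nat.card V := by
    refine le_card_of_min hexp (fun i => π (x i)) ?_
    intro j hj
    have e1 : (fun i => π (x i)) '' {j}ᶜ = π '' (x '' {j}ᶜ) := by rw [Set.image_image]
    rw [e1, ← MonoidHom.map_closure] at hj
    obtain ⟨h, hh, hhj⟩ := hj
    have e2 : h⁻¹ * x j ∈ frattini G := QuotientGroup.eq.mp hhj
    have e3 : Subgroup.closure (x '' {j}ᶜ) ⊔ frattini G = ⊤ := by
      rw [eq_top_iff, ← hx.gen, Subgroup.closure_le]
      rintro _ ⟨i, rfl⟩
      by_cases hij : i = j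
      · subst hij
        have e4 : x i = h * (h⁻¹ * x i) := by group
        rw [e4]
        exact mul_mem ((le_sup_left : _ ≤ Subgroup.closure (x '' {i}ᶜ) ⊔ frattini G) hh)
          ((le_sup_right : _ ≤ Subgroup.closure (x '' {i}ᶜ) ⊔ frattini G) e2)
      · exact (le_sup_left : _ ≤ Subgroup.closure (x '' {j}ᶜ) ⊔ frattini G)
          (Subgroup.subset_closure ⟨i, hij, rfl⟩)
    refine hx.minimal {j}ᶜ ?_ (frattini_nongenerating e3)
    intro h
    have : j ∈ ({j}ᶜ : Set (Fin d)) := by rw [h]; trivial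
    exact this rfl
  exact (Nat.pow_le_pow_iff_right hp.out.one_lt).mp (h2.trans h1)

end Pool.Agent.Helper832.AutC
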