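import Mathlib
import Pool.Agent.Helper832.AutC.Base

/-!
Class-preserving automorphisms: the commutator pairing of a group of class at most two.
-/

set_option autoImplicit false

open scoped commutatorElement

namespace Pool.Agent.Helper832.AutC

instance cenComm (G : Type) [Group G] : CommGroup (Subgroup.center G) :=
  { (inferInstance : Group (Subgroup.center G)) with
    mul_comm := fun a b => Subtype.ext ((Subgroup.mem_center_iff.mp b.2) a) }

section Pair

variable {G : Type} [Group G]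

lemma comm_center (hc : ∀ a b c : G, ⁅⁅a, b⁆, c⁆ = 1) (a b : G) :
    ⁅a, b⁆ ∈ Subgroup.center G := by
  rw [Subgroup.mem_center_iff]
  intro c
  exact ((commutatorElement_eq_one_iff_mul_comm).mp (hc a b c)).symm

/-- the commutator pairing of a group of class at most two -/
def pr (hc : ∀ a b c : G, ⁅⁅a, b⁆, c⁆ = 1) : G →* G →* Subgroup.center G :=
  MonoidHom.mk' (fun u => MonoidHom.mk' (fun g => ⟨⁅u, g⁆, comm_center hc u g⟩)
    (by
      intro g h
      apply Subtype.ext
      show ⁅u, g * h⁆ = ⁅u, g⁆ * ⁅u, h⁆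
      have h1 := (commutatorElement_eq_one_iff_mul_comm).mp (hc u h g)
      have h2 : ⁅u, g * h⁆ = ⁅u, g⁆ * (g * ⁅u, h⁆ * g⁻¹) := by
        simp only [commutatorElement_def]; group
      rw [h2, ← h1]; group))
    (by
      intro u v
      apply MonoidHom.ext
      intro g
      apply Subtype.ext
      show ⁅u * v, g⁆ = ⁅u, g⁆ * ⁅v, g⁆
      have h1 := (commutatorElement_eq_one_iff_mul_comm).mp (hc v g u)
      have h2 : ⁅u * v, g⁆ = (u * ⁅v, g⁆ * u⁻¹) * ⁅u, g⁆ := by
        simp only [commutatorElement_def]; group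
      have h3 := (commutatorElement_eq_one_iff_mul_comm).mp (hc v g ⁅u, g⁆)
      rw [h2, ← h1, ← h3]; group)

lemma pr_coe (hc : ∀ a b c : G, ⁅⁅a, b⁆, c⁆ = 1) (u g : G) :
    ((pr hc u g : Subgroup.center G) : G) = ⁅u, g⁆ := rfl

lemma pr_eq_one_iff (hc : ∀ a b c : G, ⁅⁅a, b⁆, c⁆ = 1) (u g : G) :
    pr hc u g = 1 ↔ ⁅u, g⁆ = 1 := by
  rw [← pr_coe hc]
  exact (OneMemClass.coe_eq_one).symm

lemma pr_zpow (hc : ∀ a b c : G, ⁅⁅a, b⁆, c⁆ = 1) (u g : G) (n : ℤ) :
    pr hc (u ^ n) g = (pr hc u g) ^ n := by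
  rw [map_zpow]; rfl

lemma hom_wd {M : Type*} [CommGroup M] {d : ℕ} (φ : G →* M) (x : Fin d → G) (a : Fin d → ℤ) :
    φ (wd x a) = ∏ i, φ (x i) ^ a i := by
  unfold wd
  rw [map_list_prod, List.map_ofFn, List.prod_ofFn]
  refine Finset.prod_congr rfl (fun i _ => ?_)
  show φ (x i ^ a i) = _
  rw [map_zpow]

lemma pr_wd (hc : ∀ a b c : G, ⁅⁅a, b⁆, c⁆ = 1) {d : ℕ} (x : Fin d → G) (a : Fin d → ℤ) (g : G) :
    pr hc (wd x a) g = ∏ i, (pr hc (x i) g) ^ a i := by
  have h := hom_wd (((MonoidHom.eval g).comp (pr hc) : G →* Subgroup.center G)) x a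
  exact h

lemma wd_mul_center {d : ℕ} (x : Fin d → G) (t : Fin d → Subgroup.center G) (a : Fin d → ℤ) :
    wd (fun i => x i * (t i : G)) a = wd x a * ((∏ i, t i ^ a i : Subgroup.center G) : G) := by
  induction d with
  | zero => simp [wd]
  | succ n ih =>
    have e := ih (fun i => x i.succ) (fun i => t i.succ) (fun i => a i.succ)
    have e1 : ∀ y : Fin (n + 1) → G, wd y a
        = y 0 ^ a 0 * wd (fun i => y i.succ) (fun i => a i.succ) := by
      intro y
      unfold wd
      rw [List.ofFn_succ, List.prod_cons]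
    rw [e1, e, e1 x, Fin.prod_univ_succ]
    have hcen : ∀ g : G, (t 0 : G) * g = g * (t 0 : G) := fun g =>
      ((Subgroup.mem_center_iff.mp (t 0).2) g).symm
    have h1 : (x 0 * (t 0 : G)) ^ a 0 = x 0 ^ a 0 * (t 0 : G) ^ a 0 :=
      (Commute.mul_zpow (hcen (x 0)).symm (a 0))
    have h2 : ∀ g : G, (t 0 : G) ^ a 0 * g = g * (t 0 : G) ^ a 0 := fun g =>
      (Commute.zpow_left (hcen g) (a 0))
    rw [h1, Subgroup.coe_mul, Subgroup.coe_zpow]
    calc x 0 ^ a 0 * (t 0 : G) ^ a 0 * (wd (fun i => x i.succ) (fun i => a i.succ)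
          * ((∏ i : Fin n, t i.succ ^ a i.succ : Subgroup.center G) : G))
        = x 0 ^ a 0 * ((t 0 : G) ^ a 0 * wd (fun i => x i.succ) (fun i => a i.succ))
          * ((∏ i : Fin n, t i.succ ^ a i.succ : Subgroup.center G) : G) := by group
      _ = _ := by rw [h2]; group

lemma isConj_iff_two (hc : ∀ a b c : G, ⁅⁅a, b⁆, c⁆ = 1) (u v : G) :
    IsConj u v ↔ ∃ g, v = u * ⁅u, g⁆ := by
  have key : ∀ g : G, u * ⁅u, g⁆ = g⁻¹ * u * g := by
    intro g
    have h1 : ⁅u, g⁆ = ⁅g⁻¹, u⁆ := by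
      have h2 : pr hc u g = pr hc g⁻¹ u := by
        have h3 : pr hc g⁻¹ u = (pr hc g u)⁻¹ := by rw [map_inv]; rfl
        rw [h3]
        apply Subtype.ext
        show ⁅u, g⁆ = ⁅g, u⁆⁻¹
        rw [commutatorElement_inv]
      exact congrArg Subtype.val h2
    have h4 := (commutatorElement_eq_one_iff_mul_comm).mp (hc g⁻¹ u u)
    rw [h1, ← h4, commutatorElement_def]; group
  rw [isConj_iff]
  constructor
  · rintro ⟨c, rfl⟩
    exact ⟨c⁻¹, by rw [key]; group⟩
  · rintro ⟨g, rfl⟩
    exact ⟨g⁻¹, by rw [key]; group⟩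

end Pair

/-- necessary condition: equality forces the decomposition modulo every `N ≥ γ₃` -/
theorem necessary {G : Type} [Group G] {d : ℕ} (x : Fin d → G) (hx : SurjP x)
    (N : Subgroup G) [N.Normal] (hN : ∀ a b c : G, ⁅⁅a, b⁆, c⁆ ∈ N) (a : Fin d → ℤ)
    (ha : ∀ g, ⁅wd x a, g⁆ ∈ N) (i : Fin d) (g : G) : ⁅x i ^ a i, g⁆ ∈ N := by
  classical
  let π : G →* G ⧸ N := QuotientGroup.mk' N
  have hπ : ∀ u : G, π u = 1 ↔ u ∈ N := fun u => QuotientGroup.eq_one_iff u
  have hc : ∀ a b c : G ⧸ N, ⁅⁅a, b⁆, c⁆ = 1 := by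
    intro a b c
    obtain ⟨a, rfl⟩ := QuotientGroup.mk'_surjective N a
    obtain ⟨b, rfl⟩ := QuotientGroup.mk'_surjective N b
    obtain ⟨c, rfl⟩ := QuotientGroup.mk'_surjective N c
    rw [← map_commutatorElement, ← map_commutatorElement]
    exact (hπ _).mpr (hN a b c)
  have hwd : ∀ y : Fin d → G, π (wd y a) = wd (fun j => π (y j)) a := by
    intro y
    unfold wd
    rw [map_list_prod, List.map_ofFn]
    congr 1
  let y : Fin d → G := Function.update x i (g * x i * g⁻¹)
  obtain ⟨α, hα, hαx⟩ := hx y (by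
    intro j
    by_cases hj : j = i
    · subst hj
      simp only [y, Function.update_self]
      exact isConj_iff.mpr ⟨g, rfl⟩
    · simp only [y, Function.update_of_ne hj]
      exact IsConj.refl _)
  have h1 : IsConj (wd x a) (wd y a) := by
    have h2 := hα (wd x a)
    have h3 : α (wd x a) = wd y a := by
      unfold wd
      rw [map_list_prod, List.map_ofFn]
      congr 1
      congr 1
      funext j
      show α (x j ^ a j) = _
      rw [map_zpow, hαx]
    rwa [h3] at h2
  -- the word is central in the quotient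
  have h4 : π (wd y a) = π (wd x a) := by
    obtain ⟨c, hcc⟩ := isConj_iff.mp h1
    have h5 : ⁅wd x a, c⁆ ∈ N := ha c
    have h6 : ⁅π (wd x a), π c⁆ = 1 := by
      rw [← map_commutatorElement]; exact (hπ _).mpr h5
    have h7 := (commutatorElement_eq_one_iff_mul_comm).mp h6
    rw [← hcc, map_mul, map_mul, ← h7, map_inv]; group
  let t : Fin d → Subgroup.center (G ⧸ N) :=
    fun j => if j = i then pr hc (π (x i))⁻¹ (π g) else 1
  have h8 : ∀ j, π (y j) = π (x j) * (t j : G ⧸ N) := by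
    intro j
    by_cases hj : j = i
    · subst hj
      have e1 : t j = pr hc (π (x j))⁻¹ (π g) := if_pos rfl
      simp only [y, Function.update_self]
      rw [e1, pr_coe, commutatorElement_def, map_mul, map_mul, map_inv]; group
    · have e1 : t j = 1 := if_neg hj
      simp only [y, Function.update_of_ne hj]
      rw [e1]; simp
  have h9 : (fun j => π (y j)) = fun j => π (x j) * (t j : G ⧸ N) := funext h8
  have h10 : ((∏ j, t j ^ a j : Subgroup.center (G ⧸ N)) : G ⧸ N) = 1 := by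
    have e := hwd y
    rw [h9, wd_mul_center, ← hwd x, h4] at e
    exact (mul_eq_left.mp e.symm)
  have h11 : (∏ j, t j ^ a j) = t i ^ a i := by
    refine Finset.prod_eq_single i (fun j _ hj => ?_) (fun h => absurd (Finset.mem_univ i) h)
    have e1 : t j = 1 := if_neg hj
    rw [e1, one_zpow]
  have h12 : t i = (pr hc (π (x i)) (π g))⁻¹ := by
    have e1 : t i = pr hc (π (x i))⁻¹ (π g) := if_pos rfl
    rw [e1, map_inv]; rfl
  rw [h11] at h10
  have h13 : t i ^ a i = 1 := by
    exact_mod_cast (OneMemClass.coe_eq_one.mp h10)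
  rw [h12, inv_zpow, inv_eq_one, ← pr_zpow, pr_eq_one_iff, ← map_zpow, ← map_commutatorElement]
    at h13
  exact (hπ _).mp h13

end Pool.Agent.Helper832.AutC
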