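import Mathlib
import Pool.Agent.Helper832.AutC.Two

/-!
Class-preserving automorphisms: the criterion in class at most two is sufficient.
-/

set_option autoImplicit false

open scoped commutatorElement

namespace Pool.Agent.Helper832.AutC

variable {G : Type} [Group G]

/-- decomposition criterion, pairing form -/
def Crit (hc : ∀ a b c : G, ⁅⁅a, b⁆, c⁆ = 1) {ι : Type} [Fintype ι] (x : ι → G) : Prop :=
  ∀ (a : ι → ℤ) (j : ι) (g : G), ∃ h : G, (pr hc (x j) g) ^ a j = ∏ i, (pr hc (x i) h) ^ a i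

/-- decomposition criterion: modulo every `N ≤ γ₂`, the central quotient is the direct product
of the cyclic groups generated by the images of the `x i` -/
def CritN {d : ℕ} (x : Fin d → G) : Prop :=
  ∀ N : Subgroup G, N ≤ commutator G → ∀ a : Fin d → ℤ, (∀ g, ⁅wd x a, g⁆ ∈ N) →
    ∀ i g, ⁅x i ^ a i, g⁆ ∈ N

theorem crit_of_critN (hc : ∀ a b c : G, ⁅⁅a, b⁆, c⁆ = 1) {d : ℕ} (x : Fin d → G)
    (h : CritN x) : Crit hc x := by
  intro a j g
  have h1 := h ((pr hc (wd x a)).range.map (Subgroup.center G).subtype) (by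
    rintro _ ⟨_, ⟨k, rfl⟩, rfl⟩
    exact Subgroup.commutator_mem_commutator (Subgroup.mem_top _) (Subgroup.mem_top _)) a
    (fun k => ⟨pr hc (wd x a) k, ⟨k, rfl⟩, rfl⟩) j g
  obtain ⟨_, ⟨k, rfl⟩, hk⟩ := h1
  refine ⟨k, ?_⟩
  rw [← pr_wd, ← pr_zpow]
  apply Subtype.ext
  exact hk.symm

theorem pr_of_of (hc : ∀ a b c : G, ⁅⁅a, b⁆, c⁆ = 1) {ι : Type} [Fintype ι] (x : ι → G)
    (u : G) (a : ι → ℤ) (h : Abelianization.of u = ∏ i, (Abelianization.of (x i)) ^ a i) (g : G) :
    pr hc u g = ∏ i, (pr hc (x i) g) ^ a i := by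
  let φ : G →* Subgroup.center G := (MonoidHom.eval g).comp (pr hc)
  have h1 : ∀ v : G, Abelianization.lift φ (Abelianization.of v) = pr hc v g := fun v =>
    Abelianization.lift_apply_of φ v
  rw [← h1, h, map_prod]
  refine Finset.prod_congr rfl (fun i _ => ?_)
  rw [map_zpow, h1]

theorem exists_exponents {ι : Type} [Fintype ι] (x : ι → G)
    (hx : Subgroup.closure (Set.range x) = ⊤) (u : G) :
    ∃ a : ι → ℤ, Abelianization.of u = ∏ i, (Abelianization.of (x i)) ^ a i := by
  classical
  have hu : u ∈ Subgroup.closure (Set.range x) := by rw [hx]; exact Subgroup.mem_top u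
  induction hu using Subgroup.closure_induction with
  | mem v hv =>
    obtain ⟨i, rfl⟩ := hv
    refine ⟨Pi.single i 1, ?_⟩
    rw [Finset.prod_eq_single i]
    · rw [Pi.single_eq_same, zpow_one]
    · intro j _ hj
      rw [Pi.single_eq_of_ne hj, zpow_zero]
    · intro h; exact absurd (Finset.mem_univ i) h
  | one => exact ⟨0, by simp⟩
  | mul v w _ _ hv hw =>
    obtain ⟨a, ha⟩ := hv
    obtain ⟨b, hb⟩ := hw
    refine ⟨a + b, ?_⟩
    rw [map_mul, ha, hb, ← Finset.prod_mul_distrib]
    refine Finset.prod_congr rfl (fun i _ => ?_)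
    rw [Pi.add_apply, zpow_add]
  | inv v _ hv =>
    obtain ⟨a, ha⟩ := hv
    refine ⟨-a, ?_⟩
    rw [map_inv, ha, ← Finset.prod_inv_distrib]
    refine Finset.prod_congr rfl (fun i _ => ?_)
    rw [Pi.neg_apply, zpow_neg]

theorem surjP_of_crit [Finite G] (hc : ∀ a b c : G, ⁅⁅a, b⁆, c⁆ = 1) {d : ℕ} (x : Fin d → G)
    (hx : Subgroup.closure (Set.range x) = ⊤) (h : Crit hc x) : SurjP x := by
  classical
  intro y hy
  choose gg hgg using fun i => (isConj_iff_two hc (x i) (y i)).mp (hy i)
  let t : Fin d → Subgroup.center G := fun i => pr hc (x i) (gg i)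
  have hyt : ∀ i, y i = x i * (t i : G) := hgg
  choose e he using exists_exponents x hx
  -- well-definedness
  have wd0 : ∀ b : Fin d → ℤ, (1 : Abelianization G) = ∏ i, (Abelianization.of (x i)) ^ b i →
      ∏ i, t i ^ b i = 1 := by
    intro b hb
    refine Finset.prod_eq_one (fun j _ => ?_)
    obtain ⟨k, hk⟩ := h b j (gg j)
    have h1 : pr hc 1 k = ∏ i, (pr hc (x i) k) ^ b i :=
      pr_of_of hc x 1 b (by rw [map_one]; exact hb) k
    show (pr hc (x j) (gg j)) ^ b j = 1
    rw [hk, ← h1, map_one]; rfl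
  have wd1 : ∀ (u : G) (b : Fin d → ℤ),
      Abelianization.of u = ∏ i, (Abelianization.of (x i)) ^ b i →
      ∏ i, t i ^ b i = ∏ i, t i ^ e u i := by
    intro u b hb
    have h1 := wd0 (b - e u) (by
      have h2 : ∏ i, (Abelianization.of (x i)) ^ (b - e u) i
          = (∏ i, (Abelianization.of (x i)) ^ b i) * (∏ i, (Abelianization.of (x i)) ^ e u i)⁻¹ := by
        rw [← Finset.prod_inv_distrib, ← Finset.prod_mul_distrib]
        refine Finset.prod_congr rfl (fun i _ => ?_)
        rw [Pi.sub_apply, zpow_sub]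
      rw [h2, ← hb, ← he u, mul_inv_cancel])
    have h3 : ∏ i, t i ^ (b - e u) i = (∏ i, t i ^ b i) * (∏ i, t i ^ e u i)⁻¹ := by
      rw [← Finset.prod_inv_distrib, ← Finset.prod_mul_distrib]
      refine Finset.prod_congr rfl (fun i _ => ?_)
      rw [Pi.sub_apply, zpow_sub]
    rw [h3, mul_inv_eq_one] at h1
    exact h1
  let f : G →* Subgroup.center G := MonoidHom.mk' (fun u => ∏ i, t i ^ e u i) (by
    intro u v
    have h1 := wd1 (u * v) (e u + e v) (by
      rw [map_mul, he u, he v, ← Finset.prod_mul_distrib]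
      refine Finset.prod_congr rfl (fun i _ => ?_)
      rw [Pi.add_apply, zpow_add])
    rw [← h1, ← Finset.prod_mul_distrib]
    refine Finset.prod_congr rfl (fun i _ => ?_)
    rw [Pi.add_apply, zpow_add])
  have hf : ∀ u, f u = ∏ i, t i ^ e u i := fun u => rfl
  have hfx : ∀ i, f (x i) = t i := by
    intro i
    rw [hf, ← wd1 (x i) (Pi.single i 1) (by
      rw [Finset.prod_eq_single i]
      · rw [Pi.single_eq_same, zpow_one]
      · intro j _ hj
        rw [Pi.single_eq_of_ne hj, zpow_zero]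
      · intro h; exact absurd (Finset.mem_univ i) h)]
    rw [Finset.prod_eq_single i]
    · rw [Pi.single_eq_same, zpow_one]
    · intro j _ hj
      rw [Pi.single_eq_of_ne hj, zpow_zero]
    · intro h; exact absurd (Finset.mem_univ i) h
  have hfr : ∀ u, ∃ k, f u = pr hc u k := by
    intro u
    have h1 : f u ∈ (pr hc u).range := by
      rw [hf]
      refine Subgroup.prod_mem _ (fun j _ => ?_)
      obtain ⟨k, hk⟩ := h (e u) j (gg j)
      refine ⟨k, ?_⟩
      show pr hc u k = (pr hc (x j) (gg j)) ^ e u j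
      rw [hk]
      exact pr_of_of hc x u (e u) (he u) k
    obtain ⟨k, hk⟩ := h1
    exact ⟨k, hk.symm⟩
  let α : G →* G := MonoidHom.mk' (fun u => u * (f u : G)) (by
    intro u v
    have h1 := Subgroup.mem_center_iff.mp (f u).2 v
    show u * v * ((f (u * v) : Subgroup.center G) : G) = u * (f u : G) * (v * (f v : G))
    rw [map_mul, Subgroup.coe_mul]
    calc u * v * ((f u : G) * (f v : G)) = u * (v * (f u : G)) * (f v : G) := by group
      _ = _ := by rw [h1]; group)
  have hα : ∀ u, α u = u * (f u : G) := fun u => rfl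
  have hinj : Function.Injective α := by
    rw [injective_iff_map_eq_one]
    intro u hu
    rw [hα] at hu
    have h1 : u = ((f u)⁻¹ : Subgroup.center G) := by
      rw [Subgroup.coe_inv]
      exact eq_inv_of_mul_eq_one_left hu
    have h2 : u ∈ Subgroup.center G := by rw [h1]; exact ((f u)⁻¹).2
    obtain ⟨k, hk⟩ := hfr u
    have h3 : pr hc u k = 1 := by
      rw [pr_eq_one_iff, commutatorElement_eq_one_iff_mul_comm]
      exact (Subgroup.mem_center_iff.mp h2 k).symm
    rw [hk, h3] at hu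
    simpa using hu
  have hbij : Function.Bijective α := Finite.injective_iff_bijective.mp hinj
  refine ⟨MulEquiv.ofBijective α hbij, fun u => ?_, fun i => ?_⟩
  · obtain ⟨k, hk⟩ := hfr u
    refine (isConj_iff_two hc _ _).mpr ⟨k, ?_⟩
    show u * (f u : G) = u * ⁅u, k⁆
    rw [hk, pr_coe]
  · show x i * (f (x i) : G) = y i
    rw [hfx, hyt]

theorem crit_comp (hc : ∀ a b c : G, ⁅⁅a, b⁆, c⁆ = 1) {ι κ : Type} [Fintype ι] [Fintype κ]
    (x : ι → G) (h : Crit hc x) (φ : κ → ι) (hφ : Function.Injective φ) : Crit hc (x ∘ φ) := by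
  classical
  intro a j g
  obtain ⟨k, hk⟩ := h (Function.extend φ a 0) (φ j) g
  refine ⟨k, ?_⟩
  rw [hφ.extend_apply] at hk
  show (pr hc (x (φ j)) g) ^ a j = _
  rw [hk]
  symm
  refine Fintype.prod_of_injective φ hφ _ _ (fun i hi => ?_) (fun i => ?_)
  · rw [Function.extend_apply' _ _ _ hi, Pi.zero_apply, zpow_zero]
  · rw [hφ.extend_apply]; rfl

/-- a minimal generating family inside a generating family -/
theorem exists_min {ι : Type} [Fintype ι] (x : ι → G)
    (hx : Subgroup.closure (Set.range x) = ⊤) :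
    ∃ (d : ℕ) (φ : Fin d → ι), Function.Injective φ ∧ IsMinGen (x ∘ φ) := by
  classical
  let S : Set (Finset ι) := {s | Subgroup.closure (x '' (s : Set ι)) = ⊤}
  have hS : S.Nonempty := ⟨Finset.univ, by
    show Subgroup.closure (x '' ((Finset.univ : Finset ι) : Set ι)) = ⊤
    rw [Finset.coe_univ, Set.image_univ, hx]⟩
  obtain ⟨s, hs, hmin⟩ := Set.exists_min_image S Finset.card (Set.toFinite S) hS
  let eqv := s.equivFin
  let φ : Fin s.card → ι := fun i => ((eqv.symm i : s) : ι)
  have hφ : Function.Injective φ := Subtype.val_injective.comp eqv.symm.injective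
  have hr : Set.range φ = (s : Set ι) := by
    ext i
    constructor
    · rintro ⟨k, rfl⟩
      exact (eqv.symm k).2
    · intro hi
      exact ⟨eqv ⟨i, hi⟩, by simp [φ]⟩
  refine ⟨s.card, φ, hφ, ⟨?_, ?_⟩⟩
  · rw [Set.range_comp, hr]
    exact hs
  · intro t ht hcl
    let t' : Finset ι := (Set.toFinite (φ '' t)).toFinset
    have ht' : (t' : Set ι) = φ '' t := Set.Finite.coe_toFinset _
    have h1 : t' ∈ S := by
      show Subgroup.closure (x '' (t' : Set ι)) = ⊤
      rw [ht', ← Set.image_comp]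
      exact hcl
    have h2 := hmin t' h1
    have h3 : t' ⊆ s := by
      intro i hi
      have : i ∈ (t' : Set ι) := hi
      rw [ht'] at this
      obtain ⟨k, _, rfl⟩ := this
      exact (eqv.symm k).2
    have h4 : t' = s := Finset.eq_of_subset_of_card_le h3 h2
    apply ht
    rw [Set.eq_univ_iff_forall]
    intro k
    have h5 : φ k ∈ (t' : Set ι) := by
      rw [h4]
      exact (eqv.symm k).2
    rw [ht'] at h5
    obtain ⟨k', hk', hkk⟩ := h5
    exact hφ hkk ▸ hk'

end Pool.Agent.Helper832.AutC
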