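import Mathlib
import Pool.Agent.Helper832.AutC.Suff

/-!
Class-preserving automorphisms: groups of class at most two with cyclic derived subgroup.
-/

set_option autoImplicit false

open scoped commutatorElement

namespace Pool.Agent.Helper832.AutC

/-- the commutators are linearly ordered by generated subgroup -/
def Chain (G : Type) [Group G] : Prop :=
  ∀ a b c d : G, ⁅a, b⁆ ∈ Subgroup.zpowers ⁅c, d⁆ ∨ ⁅c, d⁆ ∈ Subgroup.zpowers ⁅a, b⁆

theorem mem_zpowers_of_dvd {C : Type} [Group C] [Finite C] [IsCyclic C] (u v : C)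
    (huv : orderOf u ∣ orderOf v) : u ∈ Subgroup.zpowers v := by
  classical
  haveI : Fintype C := Fintype.ofFinite C
  let A : Finset C := Finset.univ.filter (fun a : C => a ^ orderOf v = 1)
  let B : Finset C := Finset.univ.filter (fun a : C => a ∈ Subgroup.zpowers v)
  have h1 : A.card ≤ orderOf v := IsCyclic.card_pow_eq_one_le (α := C) (orderOf_pos v)
  have h2 : B.card = orderOf v := by
    rw [← Nat.card_zpowers, Nat.card_eq_fintype_card, Fintype.card_subtype]
  have h3 : B ⊆ A := by
    intro b hb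
    obtain ⟨i, hi⟩ := (Finset.mem_filter.mp hb).2
    refine Finset.mem_filter.mpr ⟨Finset.mem_univ _, ?_⟩
    rw [← hi]
    show (v ^ i) ^ orderOf v = 1
    rw [← zpow_natCast, ← zpow_mul, mul_comm, zpow_mul, zpow_natCast, pow_orderOf_eq_one, one_zpow]
  have h4 : B = A := Finset.eq_of_subset_of_card_le h3 (by omega)
  have h5 : u ∈ A := by
    refine Finset.mem_filter.mpr ⟨Finset.mem_univ _, ?_⟩
    exact orderOf_dvd_iff_pow_eq_one.mp huv
  rw [← h4] at h5
  exact (Finset.mem_filter.mp h5).2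

theorem chain_of_cyclic {p : ℕ} [Fact p.Prime] {G : Type} [Group G] [Finite G] (hp : IsPGroup p G)
    (hcyc : IsCyclic (commutator G)) : Chain G := by
  intro a b c d
  have hab : ⁅a, b⁆ ∈ commutator G :=
    Subgroup.commutator_mem_commutator (Subgroup.mem_top _) (Subgroup.mem_top _)
  have hcd : ⁅c, d⁆ ∈ commutator G :=
    Subgroup.commutator_mem_commutator (Subgroup.mem_top _) (Subgroup.mem_top _)
  obtain ⟨k, hk⟩ := (IsPGroup.iff_orderOf.mp hp) ⁅a, b⁆
  obtain ⟨l, hl⟩ := (IsPGroup.iff_orderOf.mp hp) ⁅c, d⁆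
  have e1 : orderOf (⟨⁅a, b⁆, hab⟩ : commutator G) = p ^ k := by
    rw [Subgroup.orderOf_mk, hk]
  have e2 : orderOf (⟨⁅c, d⁆, hcd⟩ : commutator G) = p ^ l := by
    rw [Subgroup.orderOf_mk, hl]
  rcases le_total k l with h | h
  · left
    obtain ⟨n, hn⟩ := mem_zpowers_of_dvd (⟨⁅a, b⁆, hab⟩ : commutator G) ⟨⁅c, d⁆, hcd⟩
      (by rw [e1, e2]; exact pow_dvd_pow p h)
    exact ⟨n, congrArg Subtype.val hn⟩
  · right
    obtain ⟨n, hn⟩ := mem_zpowers_of_dvd (⟨⁅c, d⁆, hcd⟩ : commutator G) ⟨⁅a, b⁆, hab⟩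
      (by rw [e1, e2]; exact pow_dvd_pow p h)
    exact ⟨n, congrArg Subtype.val hn⟩

theorem chain_sub {G : Type} [Group G] (h : Chain G) (C : Subgroup G) : Chain C := by
  intro a b c d
  rcases h a b c d with ⟨n, hn⟩ | ⟨n, hn⟩
  · left
    refine ⟨n, Subtype.ext ?_⟩
    exact hn
  · right
    refine ⟨n, Subtype.ext ?_⟩
    exact hn

theorem two_sub {G : Type} [Group G] (hc : ∀ a b c : G, ⁅⁅a, b⁆, c⁆ = 1) (C : Subgroup G) :
    ∀ a b c : C, ⁅⁅a, b⁆, c⁆ = 1 := fun a b c => Subtype.ext (hc a b c)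

theorem pr_self {G : Type} [Group G] (hc : ∀ a b c : G, ⁅⁅a, b⁆, c⁆ = 1) (u : G) :
    pr hc u u = 1 := by
  rw [pr_eq_one_iff, commutatorElement_self]

theorem pr_swap {G : Type} [Group G] (hc : ∀ a b c : G, ⁅⁅a, b⁆, c⁆ = 1) (u v : G) :
    pr hc u v = (pr hc v u)⁻¹ := by
  apply Subtype.ext
  show ⁅u, v⁆ = ⁅v, u⁆⁻¹
  rw [commutatorElement_inv]

theorem pr_mul_left {G : Type} [Group G] (hc : ∀ a b c : G, ⁅⁅a, b⁆, c⁆ = 1) (u v g : G) :
    pr hc (u * v) g = pr hc u g * pr hc v g := by
  rw [map_mul]; rfl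

theorem exists_crit : ∀ (n : ℕ) (G : Type) [Group G] [Finite G]
    (hc : ∀ a b c : G, ⁅⁅a, b⁆, c⁆ = 1), Chain G → Nat.card G = n →
    ∃ (ι : Type) (_ : Fintype ι) (x : ι → G), Subgroup.closure (Set.range x) = ⊤ ∧ Crit hc x := by
  intro n
  induction n using Nat.strong_induction_on with
  | _ n ih =>
  intro G _ _ hc hch hn
  classical
  by_cases hab : ∀ a b : G, ⁅a, b⁆ = 1
  · refine ⟨G, Fintype.ofFinite G, id, ?_, ?_⟩
    · rw [Set.range_id, Subgroup.closure_univ]
    · have h1 : ∀ u g : G, pr hc u g = 1 := fun u g => (pr_eq_one_iff hc u g).mpr (hab u g)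
      intro a j g
      refine ⟨1, ?_⟩
      rw [h1, one_zpow]
      symm
      refine Finset.prod_eq_one (fun i _ => ?_)
      rw [h1, one_zpow]
  · -- a commutator of maximal order
    obtain ⟨⟨x1, y1⟩, _, hmax⟩ := Set.exists_max_image (Set.univ : Set (G × G))
      (fun q => Nat.card (Subgroup.zpowers ⁅q.1, q.2⁆)) (Set.toFinite _) ⟨(1, 1), trivial⟩
    have hz : ∀ a b : G, ⁅a, b⁆ ∈ Subgroup.zpowers ⁅x1, y1⁆ := by
      intro a b
      rcases hch a b x1 y1 with h | h
      · exact h
      · have h1 : Subgroup.zpowers ⁅x1, y1⁆ ≤ Subgroup.zpowers ⁅a, b⁆ := by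
          rw [Subgroup.zpowers_le]; exact h
        have h2 := hmax (a, b) trivial
        have h3 : Subgroup.zpowers ⁅x1, y1⁆ = Subgroup.zpowers ⁅a, b⁆ :=
          Subgroup.eq_of_le_of_card_ge h1 h2
        rw [h3]; exact Subgroup.mem_zpowers _
    have hz1 : ⁅x1, y1⁆ ≠ 1 := by
      intro h
      apply hab
      intro a b
      have := hz a b
      rw [h, Subgroup.zpowers_one_eq_bot, Subgroup.mem_bot] at this
      exact this
    let z : Subgroup.center G := pr hc x1 y1
    have hzz : ∀ a b : G, ∃ m : ℤ, pr hc a b = z ^ m := by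
      intro a b
      obtain ⟨m, hm⟩ := hz a b
      exact ⟨m, Subtype.ext hm.symm⟩
    let C : Subgroup G := Subgroup.centralizer {x1, y1}
    have hC : ∀ g : G, g ∈ C ↔ pr hc g x1 = 1 ∧ pr hc g y1 = 1 := by
      intro g
      rw [pr_eq_one_iff, pr_eq_one_iff, commutatorElement_eq_one_iff_mul_comm,
        commutatorElement_eq_one_iff_mul_comm, Subgroup.mem_centralizer_iff]
      constructor
      · intro h
        exact ⟨(h x1 (Or.inl rfl)).symm, (h y1 (Or.inr rfl)).symm⟩
      · rintro ⟨h1, h2⟩ w (rfl | rfl)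
        · exact h1.symm
        · exact h2.symm
    have hC' : ∀ g : G, g ∈ C → pr hc x1 g = 1 ∧ pr hc y1 g = 1 := by
      intro g hg
      have := (hC g).mp hg
      rw [pr_swap hc x1, pr_swap hc y1, this.1, this.2]
      simp
    have hdec : ∀ g : G, ∃ g' ∈ C, ∃ k l : ℤ, g = g' * y1 ^ k * x1 ^ l := by
      intro g
      obtain ⟨m, hm⟩ := hzz g x1
      obtain ⟨k, hk⟩ := hzz g y1
      have e1 : pr hc y1 x1 = z⁻¹ := pr_swap hc y1 x1
      refine ⟨g * x1 ^ (-k) * y1 ^ m, ?_, -m, k, by group⟩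
      rw [hC]
      constructor
      · rw [pr_mul_left, pr_mul_left, pr_zpow, pr_zpow, hm, pr_self, e1]
        simp
      · rw [pr_mul_left, pr_mul_left, pr_zpow, pr_zpow, hk, pr_self]
        show z ^ k * z ^ (-k) * 1 ^ m = 1
        simp
    have hlt : Nat.card C < n := by
      rw [← hn]
      have h1 : C ≠ ⊤ := by
        intro h
        have h2 : y1 ∈ C := by rw [h]; exact Subgroup.mem_top _
        have h3 := ((hC y1).mp h2).1
        rw [pr_swap] at h3
        apply hz1
        rw [← pr_eq_one_iff hc]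
        exact inv_eq_one.mp h3
      exact lt_of_le_of_ne (Subgroup.card_le_card_group C)
        (fun h => h1 (Subgroup.eq_top_of_card_eq C h))
    obtain ⟨ι, hι, x', hx', hcr⟩ := ih (Nat.card C) hlt C (two_sub hc C) (chain_sub hch C) rfl
    let x : Bool ⊕ ι → G := Sum.elim (fun b => if b then x1 else y1) (fun i => (x' i : G))
    have hxi : ∀ i, (x' i : G) ∈ C := fun i => (x' i).2
    refine ⟨Bool ⊕ ι, inferInstance, x, ?_, ?_⟩
    · rw [eq_top_iff]
      intro g _
      obtain ⟨g', hg', k, l, hg⟩ := hdec g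
      have m1 : x1 ∈ Subgroup.closure (Set.range x) :=
        Subgroup.subset_closure ⟨Sum.inl true, rfl⟩
      have m2 : y1 ∈ Subgroup.closure (Set.range x) :=
        Subgroup.subset_closure ⟨Sum.inl false, rfl⟩
      have m3 : C ≤ Subgroup.closure (Set.range x) := by
        have e1 : C = (Subgroup.closure (Set.range x')).map C.subtype := by
          rw [hx', ← MonoidHom.range_eq_map, Subgroup.range_subtype]
        rw [e1, MonoidHom.map_closure, Subgroup.closure_le]
        rintro _ ⟨_, ⟨i, rfl⟩, rfl⟩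
        exact Subgroup.subset_closure ⟨Sum.inr i, rfl⟩
      rw [hg]
      exact mul_mem (mul_mem (m3 hg') (zpow_mem m2 k)) (zpow_mem m1 l)
    · intro a j g
      have hprod : ∀ h : G, ∏ i, (pr hc (x i) h) ^ a i
          = (pr hc x1 h ^ a (Sum.inl true) * pr hc y1 h ^ a (Sum.inl false))
            * ∏ i, (pr hc (x' i : G) h) ^ a (Sum.inr i) := by
        intro h
        rw [Fintype.prod_sum_type, Fintype.prod_bool]
        rfl
      rcases j with b | j
      · cases b
        · -- y1
          obtain ⟨e, he⟩ := hzz y1 g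
          refine ⟨x1 ^ (-e), ?_⟩
          rw [hprod]
          have e1 : pr hc y1 (x1 ^ (-e)) = z ^ e := by
            rw [map_zpow, pr_swap hc y1 x1]
            show (z⁻¹) ^ (-e) = z ^ e
            simp
          have e2 : pr hc x1 (x1 ^ (-e)) = 1 := by rw [map_zpow, pr_self, one_zpow]
          have e3 : ∏ i, (pr hc (x' i : G) (x1 ^ (-e))) ^ a (Sum.inr i) = 1 := by
            refine Finset.prod_eq_one (fun i _ => ?_)
            rw [map_zpow, ((hC _).mp (hxi i)).1, one_zpow, one_zpow]
          rw [e1, e2, e3]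
          show (pr hc y1 g) ^ a (Sum.inl false) = _
          rw [he]; simp
        · -- x1
          obtain ⟨e, he⟩ := hzz x1 g
          refine ⟨y1 ^ e, ?_⟩
          rw [hprod]
          have e1 : pr hc x1 (y1 ^ e) = z ^ e := by rw [map_zpow]
          have e2 : pr hc y1 (y1 ^ e) = 1 := by rw [map_zpow, pr_self, one_zpow]
          have e3 : ∏ i, (pr hc (x' i : G) (y1 ^ e)) ^ a (Sum.inr i) = 1 := by
            refine Finset.prod_eq_one (fun i _ => ?_)
            rw [map_zpow, ((hC _).mp (hxi i)).2, one_zpow, one_zpow]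
          rw [e1, e2, e3]
          show (pr hc x1 g) ^ a (Sum.inl true) = _
          rw [he]; simp
      · obtain ⟨g', hg', k, l, hg⟩ := hdec g
        obtain ⟨h', hh'⟩ := hcr (fun i => a (Sum.inr i)) j ⟨g', hg'⟩
        refine ⟨(h' : G), ?_⟩
        rw [hprod, (hC' _ h'.2).1, (hC' _ h'.2).2, one_zpow, one_zpow, one_mul, one_mul]
        have e1 : pr hc (x (Sum.inr j)) g = pr hc (x' j : G) g' := by
          show pr hc (x' j : G) g = _
          rw [hg, map_mul, map_mul, map_zpow, map_zpow, ((hC _).mp (hxi j)).1,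
            ((hC _).mp (hxi j)).2]
          simp
        rw [e1]
        -- transfer from `C`
        obtain ⟨u, hu⟩ := QuotientGroup.mk_surjective
          (∏ i, (Abelianization.of (x' i)) ^ a (Sum.inr i) : Abelianization C)
        have hu' : Abelianization.of u = ∏ i, (Abelianization.of (x' i)) ^ a (Sum.inr i) := hu
        have e2 := pr_of_of (two_sub hc C) x' u (fun i => a (Sum.inr i)) hu' h'
        rw [← e2] at hh'
        have e3 : Abelianization.of (u : G)
            = ∏ i, (Abelianization.of ((x' i : G))) ^ a (Sum.inr i) := by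
          have h1 := congrArg (Abelianization.map C.subtype) hu'
          rw [Abelianization.map_of, map_prod] at h1
          rw [show (C.subtype u : G) = (u : G) from rfl] at h1
          rw [h1]
          refine Finset.prod_congr rfl (fun i _ => ?_)
          rw [map_zpow, Abelianization.map_of]
          rfl
        have e4 := pr_of_of hc (fun i => (x' i : G)) (u : G) (fun i => a (Sum.inr i)) e3 (h' : G)
        rw [← e4, ← pr_zpow]
        rw [← pr_zpow] at hh'
        apply Subtype.ext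
        have h5 := congrArg (fun w : Subgroup.center C => ((w : C) : G)) hh'
        exact h5

/-- every finite p-group of class at most two with cyclic derived subgroup has a minimal
generating family satisfying the criterion -/
theorem exists_minGen {p : ℕ} [Fact p.Prime] {G : Type} [Group G] [Finite G] (hp : IsPGroup p G)
    (hcyc : IsCyclic (commutator G)) (hc : ∀ a b c : G, ⁅⁅a, b⁆, c⁆ = 1) :
    ∃ (d : ℕ) (x : Fin d → G), IsMinGen x ∧ Attains x := by
  obtain ⟨ι, hι, x, hx, hcr⟩ := exists_crit (Nat.card G) G hc (chain_of_cyclic hp hcyc) rfl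
  obtain ⟨d, φ, hφ, hmin⟩ := exists_min x hx
  refine ⟨d, x ∘ φ, hmin, ?_⟩
  rw [attains_iff _ hmin.gen]
  exact surjP_of_crit hc _ hmin.gen (crit_comp hc x hcr φ hφ)

end Pool.Agent.Helper832.AutC
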