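import Mathlib
import Pool.Agent.Helper832.AutC.Cyc
import Pool.Agent.Helper832.AutC.Burnside

/-!
Class-preserving automorphisms: quotients, and two-generator groups of class at most three.
-/

set_option autoImplicit false

open scoped commutatorElement

namespace Pool.Agent.Helper832.AutC

theorem surjP_quot {G : Type} [Group G] {d : ℕ} {x : Fin d → G} (hx : SurjP x)
    (N : Subgroup G) [N.Normal] : SurjP (fun i => (x i : G ⧸ N)) := by
  intro y hy
  have h1 : ∀ i, ∃ g : G, ((g * x i * g⁻¹ : G) : G ⧸ N) = y i := by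
    intro i
    obtain ⟨q, hq⟩ := isConj_iff.mp (hy i)
    obtain ⟨g, rfl⟩ := QuotientGroup.mk_surjective q
    exact ⟨g, hq⟩
  choose g hg using h1
  obtain ⟨α, hα, hαx⟩ := hx (fun i => g i * x i * (g i)⁻¹) (fun i => isConj_iff.mpr ⟨g i, rfl⟩)
  have hle : ∀ β ∈ AutC G, ∀ n ∈ N, β n ∈ N := by
    intro β hβ n hn
    obtain ⟨c, hc⟩ := isConj_iff.mp (hβ n)
    rw [← hc]
    exact Subgroup.Normal.conj_mem inferInstance n hn c
  have hmap : N.map α.toMonoidHom = N := by
    ext n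
    constructor
    · rintro ⟨m, hm, rfl⟩
      exact hle α hα m hm
    · intro hn
      refine ⟨α⁻¹ n, hle α⁻¹ ((AutC G).inv_mem hα) n hn, ?_⟩
      exact MulAut.apply_inv_self G α n
  let β : (G ⧸ N) ≃* (G ⧸ N) := QuotientGroup.congr N N α hmap
  refine ⟨β, ?_, ?_⟩
  · intro q
    obtain ⟨g, rfl⟩ := QuotientGroup.mk_surjective q
    obtain ⟨c, hc⟩ := isConj_iff.mp (hα g)
    refine isConj_iff.mpr ⟨(c : G ⧸ N), ?_⟩
    show ((c * g * c⁻¹ : G) : G ⧸ N) = ((α g : G) : G ⧸ N)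
    rw [hc]
  · intro i
    show ((α (x i) : G) : G ⧸ N) = y i
    rw [hαx, hg]

theorem surjP_comp {G : Type} [Group G] {d n : ℕ} {x : Fin n → G} (hx : SurjP x)
    (φ : Fin d → Fin n) (hφ : Function.Injective φ) : SurjP (x ∘ φ) := by
  classical
  intro y hy
  obtain ⟨α, hα, h⟩ := hx (Function.extend φ y x) (by
    intro j
    by_cases hj : ∃ i, φ i = j
    · obtain ⟨i, rfl⟩ := hj
      rw [hφ.extend_apply]
      exact hy i
    · rw [Function.extend_apply' _ _ _ hj])
  refine ⟨α, hα, fun i => ?_⟩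
  have h1 := h (φ i)
  rw [hφ.extend_apply] at h1
  exact h1

theorem exists_attains {G : Type} [Group G] [Finite G] {n : ℕ} (x : Fin n → G)
    (hgen : Subgroup.closure (Set.range x) = ⊤) (hx : SurjP x) :
    ∃ (d : ℕ) (x' : Fin d → G), IsMinGen x' ∧ Attains x' := by
  obtain ⟨d, φ, hφ, hmin⟩ := exists_min x hgen
  refine ⟨d, x ∘ φ, hmin, ?_⟩
  rw [attains_iff _ hmin.gen]
  exact surjP_comp hx φ hφ

theorem surjP_of_comm {G : Type} [Group G] (h : ∀ a b : G, a * b = b * a) {d : ℕ}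
    (x : Fin d → G) : SurjP x := by
  intro y hy
  refine ⟨1, (AutC G).one_mem, fun i => ?_⟩
  obtain ⟨c, hc⟩ := isConj_iff.mp (hy i)
  rw [← hc, h c, mul_inv_cancel_right]
  rfl

/-- a generating family of length at most two, padded to a pair -/
theorem pad_two {G : Type} [Group G] {d : ℕ} (hd : d ≤ 2) (x : Fin d → G)
    (hgen : Subgroup.closure (Set.range x) = ⊤) (hx : SurjP x) :
    ∃ a b : G, Subgroup.closure {a, b} = ⊤ ∧ SurjP ![a, b] := by
  classical
  let x' : Fin 2 → G := fun j => if h : (j : ℕ) < d then x ⟨j, h⟩ else 1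
  have e : ![x' 0, x' 1] = x' := by
    funext j; fin_cases j <;> rfl
  refine ⟨x' 0, x' 1, ?_, ?_⟩
  · rw [eq_top_iff, ← hgen, Subgroup.closure_le]
    rintro _ ⟨i, rfl⟩
    have h1 : x i = x' ⟨i, by omega⟩ := by
      show _ = if h : (i : ℕ) < d then x ⟨i, h⟩ else 1
      rw [dif_pos i.2]
    rw [h1]
    apply Subgroup.subset_closure
    have h2 : ∀ j : Fin 2, x' j ∈ ({x' 0, x' 1} : Set G) := by
      intro j; fin_cases j
      · exact Or.inl rfl
      · exact Or.inr rfl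
    exact h2 _
  · rw [e]
    intro y hy
    obtain ⟨α, hα, h⟩ := hx (fun i => y ⟨i, by omega⟩) (by
      intro i
      have h1 := hy ⟨i, by omega⟩
      have h2 : x' ⟨i, by omega⟩ = x i := by
        show (if h : (i : ℕ) < d then x ⟨i, h⟩ else 1) = _
        rw [dif_pos i.2]
      rwa [h2] at h1)
    refine ⟨α, hα, fun j => ?_⟩
    by_cases hj : (j : ℕ) < d
    · have h2 : x' j = x ⟨j, hj⟩ := dif_pos hj
      rw [h2]
      exact h ⟨j, hj⟩
    · have h2 : x' j = 1 := dif_neg hj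
      have h3 := hy j
      rw [h2] at h3
      rw [h2, map_one]
      exact (isConj_one_right.mp h3).symm

theorem mem_of_zpow_mem {p : ℕ} [hp : Fact p.Prime] {G : Type} [Group G]
    (hG : IsPGroup p G) (K : Subgroup G) (h : G) (k : ℤ) (hk : ¬ (p : ℤ) ∣ k)
    (hK : h ^ k ∈ K) : h ∈ K := by
  obtain ⟨n, hn⟩ := hG h
  have hc : IsCoprime k ((p ^ n : ℕ) : ℤ) := by
    push_cast
    refine IsCoprime.pow_right ?_
    rw [isCoprime_comm]
    exact (Prime.coprime_iff_not_dvd (Nat.prime_iff_prime_int.mp hp.out)).mpr hk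
  obtain ⟨r, s, hrs⟩ := hc
  have h1 : h = (h ^ k) ^ r := by
    rw [← zpow_mul]
    have e2 : k * r = 1 + ((p ^ n : ℕ) : ℤ) * (-s) := by linarith
    rw [e2, zpow_add, zpow_one, zpow_mul, zpow_natCast, hn, one_zpow, mul_one]
  rw [h1]
  exact zpow_mem hK r

theorem normal_form {Q : Type} [Group Q] (X Y Z : Q) (hZ : ∀ q, Z * q = q * Z)
    (hXY : X * Y = Z * Y * X) (hgen : Subgroup.closure {X, Y} = ⊤) (q : Q) :
    ∃ a b c : ℤ, q = Y ^ b * X ^ a * Z ^ c := by
  have hZk : ∀ (k : ℤ) (q : Q), Z ^ k * q = q * Z ^ k := fun k q =>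
    (Commute.zpow_left (hZ q) k)
  have e1 : ∀ a : ℤ, X ^ a * Y = Y * X ^ a * Z ^ a := by
    intro a
    have h1 : Y⁻¹ * X * Y = X * Z := by
      rw [mul_assoc, hXY, hZ Y, mul_assoc, hZ X]; group
    have h2 : Y⁻¹ * X ^ a * Y = X ^ a * Z ^ a := by
      have h3 : (X * Z) ^ a = X ^ a * Z ^ a := Commute.mul_zpow (hZ X).symm a
      have h4 := conj_zpow (i := a) (a := Y⁻¹) (b := X)
      rw [inv_inv, h1, h3] at h4
      exact h4.symm
    calc X ^ a * Y = Y * (Y⁻¹ * X ^ a * Y) := by group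
      _ = _ := by rw [h2, mul_assoc]
  have e2 : ∀ a : ℤ, X ^ a * Y⁻¹ = Y⁻¹ * X ^ a * Z ^ (-a) := by
    intro a
    have h1 := e1 a
    have h5 : X ^ a = Y * X ^ a * Z ^ a * Y⁻¹ := by rw [← h1]; group
    have h6 : Y⁻¹ * X ^ a = X ^ a * Y⁻¹ * Z ^ a := by
      calc Y⁻¹ * X ^ a = Y⁻¹ * (Y * X ^ a * Z ^ a * Y⁻¹) := by rw [← h5]
        _ = X ^ a * (Z ^ a * Y⁻¹) := by group
        _ = _ := by rw [hZk]; group
    rw [h6]; group
  have hq : q ∈ Subgroup.closure {X, Y} := by rw [hgen]; exact Subgroup.mem_top q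
  induction hq using Subgroup.closure_induction_right with
  | one => exact ⟨0, 0, 0, by simp⟩
  | mul_right g _ s hs ih =>
    obtain ⟨a, b, c, rfl⟩ := ih
    rcases hs with rfl | rfl
    · refine ⟨a + 1, b, c, ?_⟩
      rw [mul_assoc, hZk, zpow_add_one]; group
    · refine ⟨a, b + 1, a + c, ?_⟩
      rw [mul_assoc, hZk, ← mul_assoc, mul_assoc (_ ^ b), e1, zpow_add_one, zpow_add]
      simp only [mul_assoc]
  | mul_inv_cancel g _ s hs ih =>
    obtain ⟨a, b, c, rfl⟩ := ih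
    rcases hs with rfl | rfl
    · refine ⟨a - 1, b, c, ?_⟩
      rw [mul_assoc, hZk, zpow_sub_one]; group
    · refine ⟨a, b - 1, -a + c, ?_⟩
      rw [mul_assoc, hZk, ← mul_assoc, mul_assoc (_ ^ b), e2, zpow_sub_one, zpow_add]
      simp only [mul_assoc]

section ThreeSec

variable {G : Type} [Group G]

lemma cen3 (h3 : ∀ a b c d : G, ⁅⁅⁅a, b⁆, c⁆, d⁆ = 1) (a b c g : G) :
    ⁅⁅a, b⁆, c⁆ * g = g * ⁅⁅a, b⁆, c⁆ :=
  (commutatorElement_eq_one_iff_mul_comm).mp (h3 a b c g)

lemma mem_cen {t : G} : t ∈ Subgroup.center G ↔ ∀ g, t * g = g * t := by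
  rw [Subgroup.mem_center_iff]
  exact ⟨fun h g => (h g).symm, fun h g => (h g).symm⟩

/-- normal form modulo the centre -/
theorem normal_form3 (h3 : ∀ a b c d : G, ⁅⁅⁅a, b⁆, c⁆, d⁆ = 1) (x y : G)
    (hgen : Subgroup.closure {x, y} = ⊤) (g : G) :
    ∃ (a b c : ℤ), ∃ t : G, (∀ k, t * k = k * t) ∧ g = y ^ b * x ^ a * ⁅x, y⁆ ^ c * t := by
  let π := QuotientGroup.mk' (Subgroup.center G)
  have hπ : ∀ u : G, π u = 1 ↔ ∀ k, u * k = k * u := fun u => by
    rw [← mem_cen]; exact QuotientGroup.eq_one_iff u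
  have hπs : Function.Surjective π := QuotientGroup.mk'_surjective _
  obtain ⟨a, b, c, h⟩ := normal_form (π x) (π y) (π ⁅x, y⁆) (by
    intro q
    obtain ⟨k, rfl⟩ := hπs q
    rw [← commutatorElement_eq_one_iff_mul_comm, ← map_commutatorElement, hπ]
    exact cen3 h3 x y k) (by
    rw [← map_mul, ← map_mul, ← map_mul, commutatorElement_def]
    congr 1; group) (by
    have e1 : ({π x, π y} : Set _) = π '' {x, y} := by rw [Set.image_pair]
    rw [e1, ← MonoidHom.map_closure, hgen, Subgroup.map_top_of_surjective _ hπs]) (π g)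
  refine ⟨a, b, c, (y ^ b * x ^ a * ⁅x, y⁆ ^ c)⁻¹ * g, ?_, by group⟩
  rw [← hπ, map_mul, map_inv, h, ← map_zpow, ← map_zpow, ← map_zpow, ← map_mul, ← map_mul,
    inv_mul_cancel]

theorem pow_form (z y w : G) (hw : ∀ g, w * g = g * w) (hzy : z * y = w * y * z) (m : ℕ) :
    (z * y) ^ m * w ^ (m.choose 2) = z ^ m * y ^ m := by
  have hwk : ∀ (k : ℕ) (g : G), w ^ k * g = g * w ^ k := fun k g => (Commute.pow_left (hw g) k)
  have e1 : ∀ m : ℕ, z * y ^ m = w ^ m * y ^ m * z := by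
    intro m
    induction m with
    | zero => simp
    | succ m ih =>
      rw [pow_succ y, ← mul_assoc, ih, mul_assoc, hzy, pow_succ w]
      calc w ^ m * y ^ m * (w * y * z) = w ^ m * (y ^ m * w) * y * z := by group
        _ = w ^ m * (w * y ^ m) * y * z := by rw [hw]
        _ = _ := by group
  induction m with
  | zero => simp
  | succ m ih =>
    have e2 : (m + 1).choose 2 = m + m.choose 2 := by
      rw [Nat.choose_succ_succ' m 1, Nat.choose_one_right]
    rw [e2, pow_add w, pow_succ (z * y), pow_succ z, pow_succ y]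
    calc (z * y) ^ m * (z * y) * (w ^ m * w ^ m.choose 2)
        = (z * y) ^ m * ((z * y) * w ^ m * w ^ m.choose 2) := by group
      _ = (z * y) ^ m * (w ^ m.choose 2 * ((z * y) * w ^ m)) := by rw [hwk (m.choose 2)]
      _ = ((z * y) ^ m * w ^ m.choose 2) * (z * y * w ^ m) := by group
      _ = (z ^ m * y ^ m) * (z * y * w ^ m) := by rw [ih]
      _ = z ^ m * (y ^ m * (w ^ m * (z * y))) := by rw [hwk m (z * y)]; group
      _ = z ^ m * ((y ^ m * w ^ m) * z * y) := by group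
      _ = z ^ m * ((w ^ m * y ^ m * z) * y) := by rw [hwk m (y ^ m)]
      _ = z ^ m * ((z * y ^ m) * y) := by rw [← e1]
      _ = _ := by group

/-- the derived subgroup of a two-generator group of class at most three -/
theorem comm_le (h3 : ∀ a b c d : G, ⁅⁅⁅a, b⁆, c⁆, d⁆ = 1) (x y : G)
    (hgen : Subgroup.closure {x, y} = ⊤) (K : Subgroup G) (hz : ⁅x, y⁆ ∈ K)
    (hu : ⁅⁅x, y⁆, x⁆ ∈ K) (hw : ⁅⁅x, y⁆, y⁆ ∈ K) : commutator G ≤ K := by
  let z := ⁅x, y⁆
  let u := ⁅z, x⁆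
  let w := ⁅z, y⁆
  have hu' : ∀ g, u * g = g * u := cen3 h3 x y x
  have hw' : ∀ g, w * g = g * w := cen3 h3 x y y
  let N := Subgroup.closure ({z, u, w} : Set G)
  have hNK : N ≤ K := by
    rw [Subgroup.closure_le]
    rintro _ (rfl | rfl | rfl)
    · exact hz
    · exact hu
    · exact hw
  have zN : z ∈ N := Subgroup.subset_closure (Or.inl rfl)
  have uN : u ∈ N := Subgroup.subset_closure (Or.inr (Or.inl rfl))
  have wN : w ∈ N := Subgroup.subset_closure (Or.inr (Or.inr rfl))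
  have step : ∀ c : G, c * z * c⁻¹ ∈ N → ∀ n ∈ N, c * n * c⁻¹ ∈ N := by
    intro c hc n hn
    induction hn using Subgroup.closure_induction with
    | mem s hs =>
      rcases hs with rfl | rfl | rfl
      · exact hc
      · rw [← hu', mul_inv_cancel_right]; exact uN
      · rw [← hw', mul_inv_cancel_right]; exact wN
    | one => rw [mul_one, mul_inv_cancel]; exact one_mem N
    | mul a b _ _ ha hb =>
      have : c * (a * b) * c⁻¹ = (c * a * c⁻¹) * (c * b * c⁻¹) := by group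
      rw [this]; exact mul_mem ha hb
    | inv a _ ha =>
      have : c * a⁻¹ * c⁻¹ = (c * a * c⁻¹)⁻¹ := by group
      rw [this]; exact inv_mem ha
  have ex : x * z * x⁻¹ = u⁻¹ * z := by
    show x * z * x⁻¹ = (⁅z, x⁆)⁻¹ * z
    rw [commutatorElement_def]; group
  have ey : y * z * y⁻¹ = w⁻¹ * z := by
    show y * z * y⁻¹ = (⁅z, y⁆)⁻¹ * z
    rw [commutatorElement_def]; group
  have ex' : x⁻¹ * z * x = u * z := by
    have h1 : z = x⁻¹ * (u⁻¹ * z) * x := by rw [← ex]; group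
    have h2 : x⁻¹ * (u⁻¹ * z) * x = u⁻¹ * (x⁻¹ * z * x) := by
      have h4 : x⁻¹ * u⁻¹ = u⁻¹ * x⁻¹ := by
        have := hu' x
        rw [← mul_inv_rev, ← mul_inv_rev, this]
      calc x⁻¹ * (u⁻¹ * z) * x = (x⁻¹ * u⁻¹) * z * x := by group
        _ = _ := by rw [h4]; group
    rw [h2] at h1
    calc x⁻¹ * z * x = u * (u⁻¹ * (x⁻¹ * z * x)) := by group
      _ = u * z := by rw [← h1]
  have ey' : y⁻¹ * z * y = w * z := by
    have h1 : z = y⁻¹ * (w⁻¹ * z) * y := by rw [← ey]; group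
    have h2 : y⁻¹ * (w⁻¹ * z) * y = w⁻¹ * (y⁻¹ * z * y) := by
      have h4 : y⁻¹ * w⁻¹ = w⁻¹ * y⁻¹ := by
        have := hw' y
        rw [← mul_inv_rev, ← mul_inv_rev, this]
      calc y⁻¹ * (w⁻¹ * z) * y = (y⁻¹ * w⁻¹) * z * y := by group
        _ = _ := by rw [h4]; group
    rw [h2] at h1
    calc y⁻¹ * z * y = w * (w⁻¹ * (y⁻¹ * z * y)) := by group
      _ = w * z := by rw [← h1]
  have hconj : ∀ g : G, ∀ n ∈ N, g * n * g⁻¹ ∈ N := by
    intro g
    have hg : g ∈ Subgroup.closure ({x, y} : Set G) := by rw [hgen]; exact Subgroup.mem_top g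
    induction hg using Subgroup.closure_induction_right with
    | one => intro n hn; simpa using hn
    | mul_right g _ s hs ih =>
      intro n hn
      have e1 : g * s * n * (g * s)⁻¹ = g * (s * n * s⁻¹) * g⁻¹ := by group
      rw [e1]
      apply ih
      rcases hs with rfl | rfl
      · exact step _ (by rw [ex]; exact mul_mem (inv_mem uN) zN) n hn
      · exact step _ (by rw [ey]; exact mul_mem (inv_mem wN) zN) n hn
    | mul_inv_cancel g _ s hs ih =>
      intro n hn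
      have e1 : g * s⁻¹ * n * (g * s⁻¹)⁻¹ = g * (s⁻¹ * n * (s⁻¹)⁻¹) * g⁻¹ := by group
      rw [e1]
      apply ih
      rcases hs with rfl | rfl
      · exact step _ (by rw [inv_inv, ex']; exact mul_mem uN zN) n hn
      · exact step _ (by rw [inv_inv, ey']; exact mul_mem wN zN) n hn
  haveI : N.Normal := ⟨fun n hn g => hconj g n hn⟩
  refine le_trans ?_ hNK
  rw [commutator_def, Subgroup.commutator_le]
  let π := QuotientGroup.mk' N
  have hπ : ∀ g : G, π g = 1 ↔ g ∈ N := fun g => QuotientGroup.eq_one_iff g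
  have hxy : π x * π y = π y * π x := by
    rw [← commutatorElement_eq_one_iff_mul_comm, ← map_commutatorElement, hπ]
    exact zN
  have hg2 : Subgroup.closure ({π x, π y} : Set (G ⧸ N)) = ⊤ := by
    have e1 : ({π x, π y} : Set _) = π '' {x, y} := by rw [Set.image_pair]
    rw [e1, ← MonoidHom.map_closure, hgen,
      Subgroup.map_top_of_surjective _ (QuotientGroup.mk'_surjective N)]
  have hcen : ∀ q : G ⧸ N, q * π x = π x * q ∧ q * π y = π y * q := by
    have h1 : (⊤ : Subgroup (G ⧸ N)) ≤ Subgroup.centralizer {π x, π y} := by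
      rw [← hg2, Subgroup.closure_le]
      rintro _ (rfl | rfl)
      · rw [SetLike.mem_coe, Subgroup.mem_centralizer_iff]
        rintro _ (rfl | rfl)
        · rfl
        · exact hxy.symm
      · rw [SetLike.mem_coe, Subgroup.mem_centralizer_iff]
        rintro _ (rfl | rfl)
        · exact hxy
        · rfl
    intro q
    have h2 := Subgroup.mem_centralizer_iff.mp (h1 (Subgroup.mem_top q))
    exact ⟨(h2 _ (Or.inl rfl)).symm, (h2 _ (Or.inr rfl)).symm⟩
  have hcen2 : (⊤ : Subgroup (G ⧸ N)) ≤ Subgroup.center (G ⧸ N) := by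
    rw [← hg2, Subgroup.closure_le]
    rintro _ (rfl | rfl)
    · rw [SetLike.mem_coe, Subgroup.mem_center_iff]
      exact fun q => (hcen q).1
    · rw [SetLike.mem_coe, Subgroup.mem_center_iff]
      exact fun q => (hcen q).2
  intro g _ h _
  rw [← hπ, map_commutatorElement, commutatorElement_eq_one_iff_mul_comm]
  exact ((Subgroup.mem_center_iff.mp (hcen2 (Subgroup.mem_top (π g)))) (π h)).symm

end ThreeSec

end Pool.Agent.Helper832.AutC
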