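import Mathlib
import Pool.Agent.Helper832.AutC.Three

/-!
Class-preserving automorphisms: the two-generator groups of class at most three.
-/

set_option autoImplicit false

open scoped commutatorElement

namespace Pool.Agent.Helper832.AutC

variable {G : Type} [Group G]

/-- for an odd prime `p` dividing `m`, `p` divides `m.choose 2` -/
lemma dvd_choose_two {p : ℕ} (hp : p.Prime) (hp2 : p ≠ 2) {m : ℕ} (hm : p ∣ m) :
    p ∣ m.choose 2 := by
  have h1 : m.choose 2 * 2 = m * (m - 1) := by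
    rw [Nat.choose_two_right, Nat.div_mul_cancel (Nat.even_mul_pred_self m).two_dvd]
  have h2 : p ∣ m.choose 2 * 2 := by rw [h1]; exact hm.mul_right _
  rcases (Nat.Prime.dvd_mul hp).mp h2 with h | h
  · exact h
  · exact absurd ((Nat.prime_dvd_prime_iff_eq hp Nat.prime_two).mp h) hp2

theorem nec3 {p : ℕ} [hp : Fact p.Prime] (hp2 : p ≠ 2) [Finite G] (hG : IsPGroup p G)
    (h3 : ∀ a b c d : G, ⁅⁅⁅a, b⁆, c⁆, d⁆ = 1) (x y : G)
    (hgen : Subgroup.closure {x, y} = ⊤) (hs : SurjP ![x, y]) :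
    ∃ s t : G, commutator G = Subgroup.closure {s, t} := by
  let z := ⁅x, y⁆
  let u := ⁅z, x⁆
  let w := ⁅z, y⁆
  let g := x * y
  let v := ⁅z, g⁆
  have hu : ∀ k, u * k = k * u := cen3 h3 x y x
  have hw : ∀ k, w * k = k * w := cen3 h3 x y y
  have hv : ∀ k, v * k = k * v := cen3 h3 x y (x * y)
  have hzy : z * y = w * y * z := by
    show z * y = ⁅z, y⁆ * y * z
    rw [commutatorElement_def]; group
  have hzg : z * g = v * g * z := by
    show z * g = ⁅z, g⁆ * g * z
    rw [commutatorElement_def]; group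
  have hxyx : x * y * x⁻¹ = z * y := by
    show x * y * x⁻¹ = ⁅x, y⁆ * y
    rw [commutatorElement_def]; group
  have huw : v = u * w := by
    have h1 : v = u * (x * w * x⁻¹) := by
      show ⁅z, x * y⁆ = ⁅z, x⁆ * (x * ⁅z, y⁆ * x⁻¹)
      simp only [commutatorElement_def]; group
    rw [h1, ← hw x, mul_inv_cancel_right]
  -- the automorphism fixing `x` and conjugating `y` by `z`
  obtain ⟨α, hα, hαx⟩ := hs ![x, z * y * z⁻¹] (by
    intro i
    fin_cases i
    · exact IsConj.refl _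
    · exact isConj_iff.mpr ⟨z, rfl⟩)
  have e0 : α x = x := hαx 0
  have e1 : α y = z * y * z⁻¹ := hαx 1
  have e2 : α g = w * g := by
    show α (x * y) = w * (x * y)
    rw [map_mul, e0, e1, hzy, mul_inv_cancel_right, ← mul_assoc, ← hw x, mul_assoc]
  obtain ⟨h, hh⟩ := isConj_iff.mp (hα g)
  rw [e2] at hh
  have hgen2 : Subgroup.closure ({y, g} : Set G) = ⊤ := by
    rw [eq_top_iff, ← hgen, Subgroup.closure_le]
    have hy : y ∈ Subgroup.closure ({y, g} : Set G) := Subgroup.subset_closure (Or.inl rfl)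
    have hg : g ∈ Subgroup.closure ({y, g} : Set G) := Subgroup.subset_closure (Or.inr rfl)
    intro q hq
    rcases hq with hq | hq
    · have h1 : q = g * y⁻¹ := by rw [hq]; show x = x * y * y⁻¹; group
      rw [SetLike.mem_coe, h1]
      exact mul_mem hg (inv_mem hy)
    · rw [SetLike.mem_coe, show q = y from hq]
      exact hy
  obtain ⟨a, b, c, t, ht, hform⟩ := normal_form3 h3 y g hgen2 h
  have hyg : ⁅y, g⁆ = z⁻¹ := by
    show ⁅y, x * y⁆ = (⁅x, y⁆)⁻¹
    simp only [commutatorElement_def]; group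
  rw [hyg, inv_zpow'] at hform
  have hzk : ∀ k : ℤ, z ^ k * g * (z ^ k)⁻¹ = v ^ k * g := by
    intro k
    have h1 : g⁻¹ * z * g = v * z := by
      have h5 : g⁻¹ * (v * g * z) = v * z := by rw [hv g]; group
      rw [mul_assoc, hzg, h5]
    have h2 : (v * z) ^ k = v ^ k * z ^ k := Commute.mul_zpow (hv z) k
    have h4 := conj_zpow (i := k) (a := g⁻¹) (b := z)
    rw [inv_inv, h1, h2] at h4
    have hvk : ∀ q, v ^ k * q = q * v ^ k := fun q => Commute.zpow_left (hv q) k
    calc z ^ k * g * (z ^ k)⁻¹ = g * (g⁻¹ * z ^ k * g) * (z ^ k)⁻¹ := by group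
      _ = g * (v ^ k * z ^ k) * (z ^ k)⁻¹ := by rw [← h4]
      _ = g * v ^ k := by group
      _ = _ := (hvk g).symm
  -- reduce the exponent of `y` to a natural number
  obtain ⟨m, hm⟩ : ∃ m : ℕ, y ^ m = y ^ a := by
    have : y ^ a ∈ Submonoid.powers y := by
      rw [mem_powers_iff_mem_zpowers]; exact ⟨a, rfl⟩
    exact this
  have hvk : ∀ (k : ℤ) (q : G), v ^ k * q = q * v ^ k := fun k q => Commute.zpow_left (hv q) k
  have e3 : y ^ m * g * (y ^ m)⁻¹ = v ^ c * (w * g) := by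
    have h1 : g ^ b * (y ^ a * (z ^ (-c) * g * (z ^ (-c))⁻¹) * (y ^ a)⁻¹) * (g ^ b)⁻¹ = w * g := by
      rw [← hh, hform]
      have h2 : t * g * t⁻¹ = g := by rw [ht, mul_inv_cancel_right]
      calc g ^ b * (y ^ a * (z ^ (-c) * g * (z ^ (-c))⁻¹) * (y ^ a)⁻¹) * (g ^ b)⁻¹
          = g ^ b * (y ^ a * (z ^ (-c) * (t * g * t⁻¹) * (z ^ (-c))⁻¹) * (y ^ a)⁻¹)
            * (g ^ b)⁻¹ := by rw [h2]
        _ = _ := by group
    rw [hzk] at h1
    have h2 : g ^ b * (y ^ a * (v ^ (-c) * g) * (y ^ a)⁻¹) * (g ^ b)⁻¹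
        = v ^ (-c) * (g ^ b * (y ^ a * g * (y ^ a)⁻¹) * (g ^ b)⁻¹) := by
      calc g ^ b * (y ^ a * (v ^ (-c) * g) * (y ^ a)⁻¹) * (g ^ b)⁻¹
          = (g ^ b * y ^ a) * v ^ (-c) * (g * (y ^ a)⁻¹ * (g ^ b)⁻¹) := by group
        _ = v ^ (-c) * (g ^ b * y ^ a) * (g * (y ^ a)⁻¹ * (g ^ b)⁻¹) := by rw [← hvk]
        _ = _ := by group
    rw [h2] at h1
    have h3' : g ^ b * (y ^ a * g * (y ^ a)⁻¹) * (g ^ b)⁻¹ = v ^ c * (w * g) := by
      rw [← h1]; group
    have h4 : y ^ a * g * (y ^ a)⁻¹ = (g ^ b)⁻¹ * (v ^ c * (w * g)) * g ^ b := by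
      rw [← h3']; group
    rw [hm, h4]
    have h5 : (g ^ b)⁻¹ * (v ^ c * (w * g)) = (v ^ c * (w * g)) * (g ^ b)⁻¹ := by
      have h6 : Commute (g ^ b)⁻¹ (v ^ c * (w * g)) := by
        refine Commute.mul_right (hvk c _).symm (Commute.mul_right (hw _).symm ?_)
        exact ((Commute.refl g).zpow_left b).inv_left
      exact h6
    rw [h5]; group
  have e4 : y ^ m = v ^ c * (w * (z * y) ^ m) := by
    have h1 : y ^ m * x = v ^ c * (w * (x * y ^ m)) := by
      have h2 : y ^ m * (x * y) * (y ^ m)⁻¹ = v ^ c * (w * (x * y)) := e3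
      calc y ^ m * x = (y ^ m * (x * y) * (y ^ m)⁻¹) * (y ^ m * y⁻¹) := by group
        _ = (v ^ c * (w * (x * y))) * (y ^ m * y⁻¹) := by rw [h2]
        _ = _ := by group
    have h2 : (z * y) ^ m = x * y ^ m * x⁻¹ := by rw [← hxyx, conj_pow]
    rw [h2]
    calc y ^ m = y ^ m * x * x⁻¹ := by group
      _ = v ^ c * (w * (x * y ^ m)) * x⁻¹ := by rw [h1]
      _ = _ := by group
  have e5 : w ^ (m.choose 2) = v ^ c * w * z ^ m := by
    have h1 := pow_form z y w hw hzy m
    have hwk : ∀ (k : ℕ) (q : G), w ^ k * q = q * w ^ k := fun k q => Commute.pow_left (hw q) k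
    have h2 : w ^ (m.choose 2) * y ^ m = (v ^ c * w * z ^ m) * y ^ m := by
      calc w ^ (m.choose 2) * y ^ m = y ^ m * w ^ (m.choose 2) := hwk _ _
        _ = v ^ c * (w * (z * y) ^ m) * w ^ (m.choose 2) := by rw [← e4]
        _ = v ^ c * (w * ((z * y) ^ m * w ^ (m.choose 2))) := by group
        _ = v ^ c * (w * (z ^ m * y ^ m)) := by rw [h1]
        _ = _ := by group
    exact mul_right_cancel h2
  -- the subgroup generated by `v` and `z`
  let K := Subgroup.closure ({v, z} : Set G)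
  have vK : v ∈ K := Subgroup.subset_closure (Or.inl rfl)
  have zK : z ∈ K := Subgroup.subset_closure (Or.inr rfl)
  have wK : w ∈ K := by
    by_cases hpm : p ∣ m
    · refine mem_of_zpow_mem hG K w ((m.choose 2 : ℤ) - 1) ?_ ?_
      · intro hd
        have h1 : (p : ℤ) ∣ (m.choose 2 : ℤ) :=
          Int.natCast_dvd_natCast.mpr (dvd_choose_two hp.out hp2 hpm)
        have h2 : (p : ℤ) ∣ 1 := by
          have h7 := dvd_sub h1 hd
          rwa [sub_sub_cancel] at h7
        have h8 : p ∣ 1 := by exact_mod_cast h2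
        exact hp.out.one_lt.ne' (Nat.dvd_one.mp h8)
      · have h1 : w ^ ((m.choose 2 : ℤ) - 1) = v ^ c * z ^ m := by
          rw [zpow_sub_one, zpow_natCast, e5, mul_assoc (v ^ c), hw (z ^ m)]; group
        rw [h1]
        exact mul_mem (zpow_mem vK c) (pow_mem zK m)
    · have h1 : z ^ (m : ℤ) ∈ Subgroup.center G := by
        have h2 : z ^ (m : ℤ) = w⁻¹ * (v ^ c)⁻¹ * w ^ (m.choose 2) := by
          rw [zpow_natCast, e5]; group
        rw [h2]
        have wC : w ∈ Subgroup.center G := mem_cen.mpr hw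
        have vC : v ∈ Subgroup.center G := mem_cen.mpr hv
        exact mul_mem (mul_mem (inv_mem wC) (inv_mem (zpow_mem vC c))) (pow_mem wC _)
      have h3' : z ∈ Subgroup.center G :=
        mem_of_zpow_mem hG _ z m (fun h => hpm (by exact_mod_cast h)) h1
      have h4 : w = 1 := commutatorElement_eq_one_iff_mul_comm.mpr (mem_cen.mp h3' y)
      rw [h4]
      exact one_mem K
  have uK : u ∈ K := by
    have : u = v * w⁻¹ := by rw [huw]; group
    rw [this]
    exact mul_mem vK (inv_mem wK)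
  refine ⟨v, z, le_antisymm (comm_le h3 x y hgen K zK uK wK) ?_⟩
  rw [Subgroup.closure_le]
  rintro _ (rfl | rfl)
  · exact Subgroup.commutator_mem_commutator (Subgroup.mem_top _) (Subgroup.mem_top _)
  · exact Subgroup.commutator_mem_commutator (Subgroup.mem_top _) (Subgroup.mem_top _)

theorem suf3 {p : ℕ} [hp : Fact p.Prime] (hp2 : p ≠ 2) [Finite G] (hG : IsPGroup p G)
    (h3 : ∀ a b c d : G, ⁅⁅⁅a, b⁆, c⁆, d⁆ = 1) (x y : G)
    (hgen : Subgroup.closure {x, y} = ⊤) (hz : ⁅⁅x, y⁆, x⁆ ∈ Subgroup.zpowers ⁅x, y⁆) (g : G) :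
    ∃ v k : G, g = v * k ∧ v * y = y * v ∧ k * x = x * k := by
  let z := ⁅x, y⁆
  let w := ⁅z, y⁆
  have hu : ∀ k, ⁅z, x⁆ * k = k * ⁅z, x⁆ := cen3 h3 x y x
  have hw : ∀ k, w * k = k * w := cen3 h3 x y y
  have hzy : z * y = w * y * z := by
    show z * y = ⁅z, y⁆ * y * z
    rw [commutatorElement_def]; group
  have hxyx : x * y * x⁻¹ = z * y := by
    show x * y * x⁻¹ = ⁅x, y⁆ * y
    rw [commutatorElement_def]; group
  obtain ⟨e, he⟩ : ∃ e : ℕ, z ^ e = ⁅z, x⁆ := by
    have : ⁅z, x⁆ ∈ Submonoid.powers z := by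
      rw [mem_powers_iff_mem_zpowers]; exact hz
    exact this
  have hze : ∀ k, z ^ e * k = k * z ^ e := by rw [he]; exact hu
  have hwe : w ^ e = 1 := by
    have h1 : z * y * z⁻¹ = w * y := by rw [hzy, mul_inv_cancel_right]
    have h2 : ∀ n : ℕ, z ^ n * y * (z ^ n)⁻¹ = w ^ n * y := by
      intro n
      induction n with
      | zero => simp
      | succ n ih =>
        have hwn : w ^ n * z = z * w ^ n := Commute.pow_left (hw z) n
        calc z ^ (n + 1) * y * (z ^ (n + 1))⁻¹ = z * (z ^ n * y * (z ^ n)⁻¹) * z⁻¹ := by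
              rw [pow_succ']; group
          _ = z * (w ^ n * y) * z⁻¹ := by rw [ih]
          _ = (z * w ^ n) * y * z⁻¹ := by group
          _ = w ^ n * (z * y * z⁻¹) := by rw [← hwn]; group
          _ = w ^ n * (w * y) := by rw [h1]
          _ = _ := by rw [pow_succ]; group
    have h3' := h2 e
    rw [hze y, mul_inv_cancel_right] at h3'
    have h4 : 1 * y = w ^ e * y := by rw [one_mul]; exact h3'
    exact (mul_right_cancel h4).symm
  have hwc : w ^ (e.choose 2) = 1 := by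
    have h1 : (w ^ (e.choose 2)) ^ (2 : ℤ) ∈ (⊥ : Subgroup G) := by
      rw [Subgroup.mem_bot]
      have h2 : e.choose 2 * 2 = e * (e - 1) := by
        rw [Nat.choose_two_right, Nat.div_mul_cancel (Nat.even_mul_pred_self e).two_dvd]
      have h5 : (w ^ (e.choose 2)) ^ (2 : ℤ) = w ^ (e.choose 2 * 2) := by
        rw [pow_mul]; norm_cast
      rw [h5, h2, pow_mul, hwe, one_pow]
    have h2 := mem_of_zpow_mem hG ⊥ _ 2 (by
      intro h
      have h4 : p ∣ 2 := by exact_mod_cast h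
      exact hp2 ((Nat.prime_dvd_prime_iff_eq hp.out Nat.prime_two).mp h4)) h1
    exact Subgroup.mem_bot.mp h2
  have hpf : (z * y) ^ e = z ^ e * y ^ e := by
    have h1 := pow_form z y w hw hzy e
    rwa [hwc, mul_one] at h1
  have hxe : x * y ^ e * x⁻¹ = z ^ e * y ^ e := by rw [← hpf, ← hxyx, conj_pow]
  have hxz : x * z * x⁻¹ = z * (z ^ e)⁻¹ := by
    have h1 : x * z * x⁻¹ = (⁅z, x⁆)⁻¹ * z := by rw [commutatorElement_def]; group
    rw [h1, ← he]
    have h2 := hze z
    group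
  let z' := z * y ^ e
  have hz' : z' * x = x * z' := by
    have h1 : x * z' * x⁻¹ = z' := by
      calc x * (z * y ^ e) * x⁻¹ = (x * z * x⁻¹) * (x * y ^ e * x⁻¹) := by group
        _ = (z * (z ^ e)⁻¹) * (z ^ e * y ^ e) := by rw [hxz, hxe]
        _ = z * y ^ e := by group
    calc z' * x = x * z' * x⁻¹ * x := by rw [h1]
      _ = _ := by group
  obtain ⟨a, b, c, t, ht, hform⟩ := normal_form3 h3 x y hgen g
  -- move the powers of `y`
  let π := QuotientGroup.mk' (Subgroup.center G)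
  have hπ : ∀ u : G, π u = 1 ↔ ∀ k, u * k = k * u := fun u => by
    rw [← mem_cen]; exact QuotientGroup.eq_one_iff u
  have hπs : Function.Surjective π := QuotientGroup.mk'_surjective _
  have hg2 : Subgroup.closure ({π x, π y} : Set (G ⧸ Subgroup.center G)) = ⊤ := by
    have e1 : ({π x, π y} : Set _) = π '' {x, y} := by rw [Set.image_pair]
    rw [e1, ← MonoidHom.map_closure, hgen, Subgroup.map_top_of_surjective _ hπs]
  have hEc : ∀ q, (π y ^ e) * q = q * (π y ^ e) := by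
    have h1 : (⊤ : Subgroup (G ⧸ Subgroup.center G)) ≤ Subgroup.centralizer {π y ^ e} := by
      rw [← hg2, Subgroup.closure_le]
      rintro _ (rfl | rfl)
      · rw [SetLike.mem_coe, Subgroup.mem_centralizer_iff]
        rintro _ rfl
        have h2 := congrArg π hxe
        rw [map_mul π (z ^ e), (hπ (z ^ e)).mpr hze, one_mul, map_mul, map_mul, map_inv,
          map_pow] at h2
        calc π y ^ e * π x = (π x * π y ^ e * (π x)⁻¹) * π x := by rw [h2]
          _ = _ := by group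
      · rw [SetLike.mem_coe, Subgroup.mem_centralizer_iff]
        rintro _ rfl
        exact Commute.pow_left (Commute.refl (π y)) e
    intro q
    exact Subgroup.mem_centralizer_iff.mp (h1 (Subgroup.mem_top q)) _ rfl
  have hEk : ∀ (k : ℤ) (q), (π y ^ e) ^ k * q = q * (π y ^ e) ^ k := fun k q =>
    Commute.zpow_left (hEc q) k
  have hπz : π z = π z' * (π y ^ e)⁻¹ := by
    rw [← map_pow, ← map_inv, ← map_mul]
    congr 1
    show z = z * y ^ e * (y ^ e)⁻¹
    group
  have hπzc : (π z) ^ c = (π z') ^ c * (π y ^ e) ^ (-c) := by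
    rw [hπz]
    have h1 : Commute (π z') (π y ^ e)⁻¹ := (Commute.inv_right (hEc (π z')).symm)
    rw [h1.mul_zpow, inv_zpow', ]
  let q0 := y ^ (b + (e : ℤ) * (-c)) * (x ^ a * z' ^ c)
  have hgq : π g = π q0 := by
    have h1 : π g = π y ^ b * π x ^ a * π z ^ c := by
      rw [hform, map_mul, map_mul, map_mul, (hπ t).mpr ht, mul_one, map_zpow, map_zpow, map_zpow]
    have h2 : π q0 = π y ^ (b + (e : ℤ) * (-c)) * (π x ^ a * π z' ^ c) := by
      show π (y ^ (b + (e : ℤ) * (-c)) * (x ^ a * z' ^ c)) = _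
      rw [map_mul, map_mul, map_zpow, map_zpow, map_zpow]
    rw [h1, h2, hπzc, zpow_add, zpow_mul, zpow_natCast]
    calc π y ^ b * π x ^ a * (π z' ^ c * (π y ^ e) ^ (-c))
        = π y ^ b * ((π x ^ a * π z' ^ c) * (π y ^ e) ^ (-c)) := by group
      _ = π y ^ b * ((π y ^ e) ^ (-c) * (π x ^ a * π z' ^ c)) := by rw [← hEk]
      _ = _ := by simp only [mul_assoc]
  have hcent : ∀ k, (q0⁻¹ * g) * k = k * (q0⁻¹ * g) := by
    rw [← hπ, map_mul, map_inv, hgq, inv_mul_cancel]
  refine ⟨y ^ (b + (e : ℤ) * (-c)), (x ^ a * z' ^ c) * (q0⁻¹ * g), ?_, ?_, ?_⟩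
  · show g = y ^ (b + (e : ℤ) * (-c)) * (x ^ a * z' ^ c * (q0⁻¹ * g))
    have h1 : y ^ (b + (e : ℤ) * (-c)) * (x ^ a * z' ^ c * (q0⁻¹ * g)) = q0 * (q0⁻¹ * g) := by
      simp only [q0, mul_assoc]
    rw [h1]; group
  · exact Commute.zpow_left (Commute.refl y) _
  · have h1 : Commute (x ^ a) x := Commute.zpow_left (Commute.refl x) a
    have h2 : Commute (z' ^ c) x := Commute.zpow_left hz' c
    exact (h1.mul_left h2).mul_left (hcent x)

end Pool.Agent.Helper832.AutC
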