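import Mathlib
import Pool.Agent.Helper832.AutC.Nec

/-!
Class-preserving automorphisms: the theorems for two-generator p-groups.
-/

set_option autoImplicit false

open scoped commutatorElement

namespace Pool.Agent.Helper832.AutC

variable {G : Type} [Group G]

lemma exists_zpow_mul (z w : G) (hw : ∀ g, w * g = g * w) (k : G)
    (hk : k ∈ Subgroup.closure ({z, w} : Set G)) : ∃ a b : ℤ, k = z ^ a * w ^ b := by
  have hwk : ∀ (k : ℤ) (q : G), w ^ k * q = q * w ^ k := fun k q => Commute.zpow_left (hw q) k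
  induction hk using Subgroup.closure_induction with
  | mem s hs =>
    rcases hs with rfl | rfl
    · exact ⟨1, 0, by simp⟩
    · exact ⟨0, 1, by simp⟩
  | one => exact ⟨0, 0, by simp⟩
  | mul s t _ _ hs ht =>
    obtain ⟨a, b, rfl⟩ := hs
    obtain ⟨c, d, rfl⟩ := ht
    refine ⟨a + c, b + d, ?_⟩
    rw [zpow_add, zpow_add]
    calc z ^ a * w ^ b * (z ^ c * w ^ d) = z ^ a * (w ^ b * z ^ c) * w ^ d := by group
      _ = z ^ a * (z ^ c * w ^ b) * w ^ d := by rw [hwk]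
      _ = _ := by group
  | inv s _ hs =>
    obtain ⟨a, b, rfl⟩ := hs
    refine ⟨-a, -b, ?_⟩
    rw [mul_inv_rev, ← zpow_neg, ← zpow_neg, hwk]

/-- one of the three generators of the derived subgroup is redundant -/
theorem redundant {p : ℕ} [hp : Fact p.Prime] [Finite G] (hG : IsPGroup p G)
    (D : Subgroup G) (f : Fin 3 → G) (hf : D = Subgroup.closure (Set.range f)) (s t : G)
    (hst : D = Subgroup.closure {s, t}) : ∃ j : Fin 3, D = Subgroup.closure (f '' {j}ᶜ) := by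
  have hfD : ∀ i, f i ∈ D := fun i => by rw [hf]; exact Subgroup.subset_closure ⟨i, rfl⟩
  have hsD : s ∈ D := by rw [hst]; exact Subgroup.subset_closure (Or.inl rfl)
  have htD : t ∈ D := by rw [hst]; exact Subgroup.subset_closure (Or.inr rfl)
  have hmapinj : Function.Injective (Subgroup.map D.subtype) :=
    Subgroup.map_injective D.subtype_injective
  have htop : (⊤ : Subgroup D).map D.subtype = D := by
    rw [← MonoidHom.range_eq_map, Subgroup.range_subtype]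
  let F : Fin 3 → D := fun i => ⟨f i, hfD i⟩
  let Y : Fin 2 → D := ![⟨s, hsD⟩, ⟨t, htD⟩]
  have hF : Subgroup.closure (Set.range F) = ⊤ := by
    apply hmapinj
    rw [MonoidHom.map_closure, htop, ← Set.range_comp]
    exact hf.symm
  have hY : Subgroup.closure (Set.range Y) = ⊤ := by
    apply hmapinj
    rw [MonoidHom.map_closure, htop, ← Set.range_comp]
    have e1 : Set.range (D.subtype ∘ Y) = {s, t} := by
      ext q
      constructor
      · rintro ⟨i, rfl⟩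
        fin_cases i
        · exact Or.inl rfl
        · exact Or.inr rfl
      · rintro (h | h)
        · exact ⟨0, h.symm⟩
        · exact ⟨1, h.symm⟩
    rw [e1]
    exact hst.symm
  have hnot : ¬ IsMinGen F := by
    intro h
    have := minGen_le (hG.to_subgroup D) F h Y hY
    omega
  have h1 : ∃ S : Set (Fin 3), S ≠ Set.univ ∧ Subgroup.closure (F '' S) = ⊤ := by
    by_contra hcon
    apply hnot
    refine ⟨hF, fun S hS hcl => hcon ⟨S, hS, hcl⟩⟩
  obtain ⟨S, hS, hcl⟩ := h1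
  obtain ⟨j, hj⟩ := (Set.ne_univ_iff_exists_notMem S).mp hS
  refine ⟨j, le_antisymm ?_ ?_⟩
  · have h2 := congrArg (Subgroup.map D.subtype) hcl
    rw [MonoidHom.map_closure, htop, Set.image_image] at h2
    conv_lhs => rw [← h2]
    apply Subgroup.closure_mono
    rintro _ ⟨i, hi, rfl⟩
    exact ⟨i, fun h => hj (h ▸ hi), rfl⟩
  · rw [Subgroup.closure_le]
    rintro _ ⟨i, _, rfl⟩
    exact hfD i

theorem pair_case {p : ℕ} [hp : Fact p.Prime] (hp2 : p ≠ 2) [Finite G] (hG : IsPGroup p G)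
    (h3 : ∀ a b c d : G, ⁅⁅⁅a, b⁆, c⁆, d⁆ = 1) (x y : G)
    (hgen : Subgroup.closure {x, y} = ⊤)
    (hz : ⁅⁅x, y⁆, x⁆ ∈ Subgroup.closure {⁅x, y⁆, ⁅⁅x, y⁆, y⁆}) :
    ∃ (d : ℕ) (x' : Fin d → G), IsMinGen x' ∧ Attains x' := by
  obtain ⟨a, b, hab⟩ := exists_zpow_mul _ _ (cen3 h3 x y y) _ hz
  let x1 := x * y ^ (-b)
  have hwk : ∀ (k : ℤ) (q : G), ⁅⁅x, y⁆, y⁆ ^ k * q = q * ⁅⁅x, y⁆, y⁆ ^ k := fun k q =>
    Commute.zpow_left (cen3 h3 x y y q) k
  have e1 : ⁅x1, y⁆ = ⁅x, y⁆ := by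
    show ⁅x * y ^ (-b), y⁆ = ⁅x, y⁆
    rw [commutatorElement_def, commutatorElement_def]
    have h1 : y ^ (-b) * y = y * y ^ (-b) := Commute.zpow_left (Commute.refl y) (-b)
    calc x * y ^ (-b) * y * (x * y ^ (-b))⁻¹ * y⁻¹ = x * (y ^ (-b) * y) * (x * y ^ (-b))⁻¹ * y⁻¹ := by
          group
      _ = x * (y * y ^ (-b)) * (x * y ^ (-b))⁻¹ * y⁻¹ := by rw [h1]
      _ = _ := by group
  have hzy : ∀ k : ℤ, ⁅⁅x, y⁆, y ^ k⁆ = ⁅⁅x, y⁆, y⁆ ^ k := by
    intro k
    have h1 : ⁅x, y⁆ * y * ⁅x, y⁆⁻¹ = ⁅⁅x, y⁆, y⁆ * y := by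
      rw [commutatorElement_def ⁅x, y⁆ y]; group
    have h2 : ⁅x, y⁆ * y ^ k * ⁅x, y⁆⁻¹ = ⁅⁅x, y⁆, y⁆ ^ k * y ^ k := by
      rw [← conj_zpow, h1]
      exact Commute.mul_zpow (cen3 h3 x y y y) k
    rw [commutatorElement_def ⁅x, y⁆ (y ^ k), h2, mul_inv_cancel_right]
  have e2 : ⁅⁅x, y⁆, x1⁆ = ⁅x, y⁆ ^ a := by
    have h1 : ⁅⁅x, y⁆, x1⁆ = ⁅⁅x, y⁆, x⁆ * (x * ⁅⁅x, y⁆, y ^ (-b)⁆ * x⁻¹) := by
      show ⁅⁅x, y⁆, x * y ^ (-b)⁆ = _
      rw [commutatorElement_def ⁅x, y⁆ (x * y ^ (-b)), commutatorElement_def ⁅x, y⁆ x,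
        commutatorElement_def ⁅x, y⁆ (y ^ (-b))]
      group
    rw [h1, hzy, ← hwk (-b) x, mul_inv_cancel_right, hab, mul_assoc, ← zpow_add, add_neg_cancel,
      zpow_zero, mul_one]
  have hgen1 : Subgroup.closure ({x1, y} : Set G) = ⊤ := by
    rw [eq_top_iff, ← hgen, Subgroup.closure_le]
    have hy : y ∈ Subgroup.closure ({x1, y} : Set G) := Subgroup.subset_closure (Or.inr rfl)
    have hx : x1 ∈ Subgroup.closure ({x1, y} : Set G) := Subgroup.subset_closure (Or.inl rfl)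
    intro q hq
    rcases hq with hq | hq
    · have h1 : q = x1 * y ^ b := by rw [hq]; show x = x * y ^ (-b) * y ^ b; group
      rw [SetLike.mem_coe, h1]
      exact mul_mem hx (zpow_mem hy b)
    · rw [SetLike.mem_coe, show q = y from hq]
      exact hy
  have h5 := suf3 hp2 hG h3 x1 y hgen1 (by rw [e1, e2]; exact ⟨a, rfl⟩)
  refine exists_attains ![y, x1] ?_ (surjP_two _ ?_)
  · have e3 : Set.range ![y, x1] = {x1, y} := by
      ext q
      constructor
      · rintro ⟨i, rfl⟩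
        fin_cases i
        · exact Or.inr rfl
        · exact Or.inl rfl
      · rintro (h | h)
        · exact ⟨1, h.symm⟩
        · exact ⟨0, h.symm⟩
    rw [e3, hgen1]
  · intro g
    obtain ⟨v, k, h, hv, hk⟩ := h5 g
    exact ⟨v, k, h, hv, hk⟩

/-- sufficiency: class at most three, derived subgroup generated by two elements -/
theorem two_gen_suf {p : ℕ} [hp : Fact p.Prime] (hp2 : p ≠ 2) [Finite G] (hG : IsPGroup p G)
    (h3 : ∀ a b c d : G, ⁅⁅⁅a, b⁆, c⁆, d⁆ = 1) (x y : G)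
    (hgen : Subgroup.closure {x, y} = ⊤) (s t : G) (hst : commutator G = Subgroup.closure {s, t}) :
    ∃ (d : ℕ) (x' : Fin d → G), IsMinGen x' ∧ Attains x' := by
  let z := ⁅x, y⁆
  let u := ⁅z, x⁆
  let w := ⁅z, y⁆
  have hu : ∀ k, u * k = k * u := cen3 h3 x y x
  have hw : ∀ k, w * k = k * w := cen3 h3 x y y
  have hcomm : ∀ a b : G, ⁅a, b⁆ ∈ commutator G := fun a b =>
    Subgroup.commutator_mem_commutator (Subgroup.mem_top _) (Subgroup.mem_top _)
  have hD : commutator G = Subgroup.closure (Set.range ![z, u, w]) := by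
    refine le_antisymm (comm_le h3 x y hgen _ ?_ ?_ ?_) ?_
    · exact Subgroup.subset_closure ⟨0, rfl⟩
    · exact Subgroup.subset_closure ⟨1, rfl⟩
    · exact Subgroup.subset_closure ⟨2, rfl⟩
    · rw [Subgroup.closure_le]
      rintro _ ⟨i, rfl⟩
      fin_cases i
      · exact hcomm _ _
      · exact hcomm _ _
      · exact hcomm _ _
  have swap : ⁅⁅y, x⁆, y⁆ ∈ Subgroup.closure {⁅y, x⁆, ⁅⁅y, x⁆, x⁆} →
      ∃ (d : ℕ) (x' : Fin d → G), IsMinGen x' ∧ Attains x' := by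
    intro h
    exact pair_case hp2 hG h3 y x (by rw [Set.pair_comm]; exact hgen) h
  have e1 : ⁅y, x⁆ = z⁻¹ := (commutatorElement_inv x y).symm
  have e2 : ∀ k : G, (∀ g : G, ⁅z, k⁆ * g = g * ⁅z, k⁆) → ⁅z⁻¹, k⁆ = ⁅z, k⁆⁻¹ := by
    intro k hk
    have h1 : ⁅z⁻¹, k⁆ = z⁻¹ * ⁅z, k⁆⁻¹ * z := by
      simp only [commutatorElement_def]; group
    have h2 : ⁅z, k⁆⁻¹ * z = z * ⁅z, k⁆⁻¹ := (Commute.inv_left (hk z))
    rw [h1, mul_assoc, h2, inv_mul_cancel_left]
  obtain ⟨j, hj⟩ := redundant hG (commutator G) ![z, u, w] hD s t hst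
  fin_cases j
  · -- `u` and `w` generate: everything is central
    have h1 : commutator G ≤ Subgroup.center G := by
      rw [hj, Subgroup.closure_le]
      rintro _ ⟨i, hi, rfl⟩
      fin_cases i
      · exact absurd rfl hi
      · exact mem_cen.mpr hu
      · exact mem_cen.mpr hw
    have h2 : u = 1 := commutatorElement_eq_one_iff_mul_comm.mpr (mem_cen.mp (h1 (hcomm x y)) x)
    refine pair_case hp2 hG h3 x y hgen ?_
    show u ∈ _
    rw [h2]; exact one_mem _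
  · -- `u` is redundant
    refine pair_case hp2 hG h3 x y hgen ?_
    have h1 : u ∈ commutator G := hcomm _ _
    rw [hj] at h1
    refine (Subgroup.closure_mono ?_) h1
    rintro _ ⟨i, hi, rfl⟩
    fin_cases i
    · exact Or.inl rfl
    · exact absurd rfl hi
    · exact Or.inr rfl
  · -- `w` is redundant
    apply swap
    have h1 : w ∈ commutator G := hcomm _ _
    rw [hj] at h1
    rw [e1, e2 y hw, e2 x hu]
    refine inv_mem ?_
    have h2 : Subgroup.closure (![z, u, w] '' {2}ᶜ) ≤ Subgroup.closure {z⁻¹, ⁅z, x⁆⁻¹} := by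
      rw [Subgroup.closure_le]
      rintro _ ⟨i, hi, rfl⟩
      have m1 : z⁻¹ ∈ Subgroup.closure ({z⁻¹, ⁅z, x⁆⁻¹} : Set G) :=
        Subgroup.subset_closure (Or.inl rfl)
      have m2 : ⁅z, x⁆⁻¹ ∈ Subgroup.closure ({z⁻¹, ⁅z, x⁆⁻¹} : Set G) :=
        Subgroup.subset_closure (Or.inr rfl)
      fin_cases i
      · have := inv_mem m1
        rwa [inv_inv] at this
      · have := inv_mem m2
        rwa [inv_inv] at this
      · exact absurd rfl hi
    exact h2 h1

theorem two_gen_iff {p : ℕ} [hp : Fact p.Prime] (hp2 : p ≠ 2) [Finite G] (hG : IsPGroup p G)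
    (h3 : ∀ a b c d : G, ⁅⁅⁅a, b⁆, c⁆, d⁆ = 1) (x y : G)
    (hgen : Subgroup.closure {x, y} = ⊤) :
    (∃ (d : ℕ) (x' : Fin d → G), IsMinGen x' ∧ Attains x') ↔
      ∃ s t : G, commutator G = Subgroup.closure {s, t} := by
  constructor
  · rintro ⟨d, x', hmin, hat⟩
    have hd : d ≤ 2 := minGen_le hG x' hmin ![x, y] (by
      rw [← hgen]; congr 1
      ext q
      constructor
      · rintro ⟨i, rfl⟩
        fin_cases i
        · exact Or.inl rfl
        · exact Or.inr rfl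
      · rintro (h | h)
        · exact ⟨0, h.symm⟩
        · exact ⟨1, h.symm⟩)
    obtain ⟨a, b, hab, hsab⟩ := pad_two hd x' hmin.gen ((attains_iff x' hmin.gen).mp hat)
    exact nec3 hp2 hG h3 a b hab hsab
  · rintro ⟨s, t, hst⟩
    exact two_gen_suf hp2 hG h3 x y hgen s t hst

lemma map_comm {H : Type} [Group H] (f : G →* H) (hf : Function.Surjective f) :
    (commutator G).map f = commutator H := by
  rw [commutator_def, commutator_def, Subgroup.map_commutator,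
    Subgroup.map_top_of_surjective _ hf]

/-- necessity in every class -/
theorem two_gen_nec {p : ℕ} [hp : Fact p.Prime] (hp2 : p ≠ 2) [Finite G] (hG : IsPGroup p G)
    (x y : G) (hgen : Subgroup.closure {x, y} = ⊤)
    (h : ∃ (d : ℕ) (x' : Fin d → G), IsMinGen x' ∧ Attains x') :
    ∃ s t : G, commutator G
      = Subgroup.closure {s, t} ⊔ ⁅⁅commutator G, (⊤ : Subgroup G)⁆, (⊤ : Subgroup G)⁆ := by
  obtain ⟨d, x', hmin, hat⟩ := h
  have hd : d ≤ 2 := minGen_le hG x' hmin ![x, y] (by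
    rw [← hgen]; congr 1
    ext q
    constructor
    · rintro ⟨i, rfl⟩
      fin_cases i
      · exact Or.inl rfl
      · exact Or.inr rfl
    · rintro (h | h)
      · exact ⟨0, h.symm⟩
      · exact ⟨1, h.symm⟩)
  obtain ⟨a, b, hab, hsab⟩ := pad_two hd x' hmin.gen ((attains_iff x' hmin.gen).mp hat)
  let N : Subgroup G := ⁅⁅commutator G, (⊤ : Subgroup G)⁆, (⊤ : Subgroup G)⁆
  have hNle : N ≤ commutator G :=
    (Subgroup.commutator_le_left _ _).trans (Subgroup.commutator_le_left _ _)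
  let π := QuotientGroup.mk' N
  have hπs : Function.Surjective π := QuotientGroup.mk'_surjective N
  have h3 : ∀ a b c d : G ⧸ N, ⁅⁅⁅a, b⁆, c⁆, d⁆ = 1 := by
    intro a b c d
    obtain ⟨a, rfl⟩ := hπs a
    obtain ⟨b, rfl⟩ := hπs b
    obtain ⟨c, rfl⟩ := hπs c
    obtain ⟨d, rfl⟩ := hπs d
    rw [← map_commutatorElement, ← map_commutatorElement, ← map_commutatorElement]
    refine (QuotientGroup.eq_one_iff _).mpr ?_
    have h1 : ⁅a, b⁆ ∈ commutator G :=
      Subgroup.commutator_mem_commutator (Subgroup.mem_top a) (Subgroup.mem_top b)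
    have h2 : ⁅⁅a, b⁆, c⁆ ∈ ⁅commutator G, (⊤ : Subgroup G)⁆ :=
      Subgroup.commutator_mem_commutator h1 (Subgroup.mem_top c)
    exact Subgroup.commutator_mem_commutator h2 (Subgroup.mem_top d)
  have hsq : SurjP ![π a, π b] := by
    have h1 := surjP_quot hsab N
    have e1 : (fun i => ((![a, b] i : G) : G ⧸ N)) = ![π a, π b] := by
      funext i
      fin_cases i <;> rfl
    rwa [e1] at h1
  have hg2 : Subgroup.closure ({π a, π b} : Set (G ⧸ N)) = ⊤ := by
    have e1 : ({π a, π b} : Set _) = π '' {a, b} := by rw [Set.image_pair]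
    rw [e1, ← MonoidHom.map_closure, hab, Subgroup.map_top_of_surjective _ hπs]
  obtain ⟨s, t, hst⟩ := nec3 hp2 (hG.to_quotient N) h3 (π a) (π b) hg2 hsq
  obtain ⟨s, rfl⟩ := hπs s
  obtain ⟨t, rfl⟩ := hπs t
  refine ⟨s, t, ?_⟩
  have h5 : (commutator G).map π = (Subgroup.closure {s, t}).map π := by
    have e1 : ({π s, π t} : Set _) = π '' {s, t} := by rw [Set.image_pair]
    rw [MonoidHom.map_closure, ← e1, ← hst]
    exact map_comm π hπs
  have h6 := congrArg (Subgroup.comap π) h5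
  rw [Subgroup.comap_map_eq, Subgroup.comap_map_eq, QuotientGroup.ker_mk', sup_eq_left.mpr hNle]
    at h6
  exact h6

/-- products of two abelian subgroups -/
theorem two_gen_prod {p : ℕ} [hp : Fact p.Prime] [Finite G] (hG : IsPGroup p G)
    (x y : G) (hgen : Subgroup.closure {x, y} = ⊤) (A B : Subgroup G)
    (hA : ∀ a ∈ A, ∀ b ∈ A, a * b = b * a) (hB : ∀ a ∈ B, ∀ b ∈ B, a * b = b * a)
    (hAB : ∀ g : G, ∃ a ∈ A, ∃ b ∈ B, g = a * b) :
    ∃ (d : ℕ) (x' : Fin d → G), IsMinGen x' ∧ Attains x' := by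
  classical
  haveI : Fintype (A ⊕ B) := Fintype.ofFinite _
  let f : A ⊕ B → G := Sum.elim (fun a => (a : G)) (fun b => (b : G))
  have hf : Subgroup.closure (Set.range f) = ⊤ := by
    rw [eq_top_iff]
    intro g _
    obtain ⟨a, ha, b, hb, rfl⟩ := hAB g
    exact mul_mem (Subgroup.subset_closure ⟨Sum.inl ⟨a, ha⟩, rfl⟩)
      (Subgroup.subset_closure ⟨Sum.inr ⟨b, hb⟩, rfl⟩)
  obtain ⟨d, φ, hφ, hmin⟩ := exists_min f hf
  have hd : d ≤ 2 := minGen_le hG _ hmin ![x, y] (by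
    rw [← hgen]; congr 1
    ext q
    constructor
    · rintro ⟨i, rfl⟩
      fin_cases i
      · exact Or.inl rfl
      · exact Or.inr rfl
    · rintro (h | h)
      · exact ⟨0, h.symm⟩
      · exact ⟨1, h.symm⟩)
  refine ⟨d, f ∘ φ, hmin, ?_⟩
  rw [attains_iff _ hmin.gen]
  have hmem : ∀ i, (f ∘ φ) i ∈ A ∨ (f ∘ φ) i ∈ B := by
    intro i
    show f (φ i) ∈ A ∨ f (φ i) ∈ B
    rcases φ i with a | b
    · exact Or.inl a.2
    · exact Or.inr b.2
  have hall : ∀ C : Subgroup G, (∀ a ∈ C, ∀ b ∈ C, a * b = b * a) →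
      (∀ i, (f ∘ φ) i ∈ C) → SurjP (f ∘ φ) := by
    intro C hC h
    have h1 : (⊤ : Subgroup G) ≤ C := by
      rw [← hmin.gen, Subgroup.closure_le]
      rintro _ ⟨i, rfl⟩
      exact h i
    exact surjP_of_comm (fun a b => hC a (h1 (Subgroup.mem_top a)) b (h1 (Subgroup.mem_top b))) _
  by_cases h1 : ∀ i, (f ∘ φ) i ∈ A
  · exact hall A hA h1
  by_cases h2 : ∀ i, (f ∘ φ) i ∈ B
  · exact hall B hB h2
  push_neg at h1 h2
  obtain ⟨i, hi⟩ := h1
  obtain ⟨j, hj⟩ := h2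
  have hi' : (f ∘ φ) i ∈ B := (hmem i).resolve_left hi
  have hj' : (f ∘ φ) j ∈ A := (hmem j).resolve_right hj
  have hij : i ≠ j := fun h => hi (h ▸ hj')
  have hd2 : d = 2 := by
    have h3 := i.2
    have h4 := j.2
    have h5 : (i : ℕ) ≠ (j : ℕ) := fun h => hij (Fin.ext h)
    omega
  subst hd2
  apply surjP_two
  intro g
  have h01 : (i = 0 ∧ j = 1) ∨ (i = 1 ∧ j = 0) := by
    revert hij
    clear hi hj hi' hj'
    revert i j
    decide
  rcases h01 with ⟨rfl, rfl⟩ | ⟨rfl, rfl⟩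
  · -- `x 0 ∈ B`, `x 1 ∈ A`
    obtain ⟨a, ha, b, hb, hg⟩ := hAB g⁻¹
    refine ⟨b⁻¹, a⁻¹, ?_, hB _ (inv_mem hb) _ hi', hA _ (inv_mem ha) _ hj'⟩
    rw [← mul_inv_rev, ← hg, inv_inv]
  · obtain ⟨a, ha, b, hb, hg⟩ := hAB g
    exact ⟨a, b, hg, hA _ ha _ hj', hB _ hb _ hi'⟩

end Pool.Agent.Helper832.AutC
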