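import Mathlib
import Pool.Agent.Helper832.AutC.TwoGen

/-!
Class-preserving automorphisms: in class at most two only the quotients with cyclic derived
subgroup matter.
-/

set_option autoImplicit false

open scoped commutatorElement

namespace Pool.Agent.Helper832.AutC

theorem residual {D : Type} [CommGroup D] [Finite D] (R : Subgroup D) (q : D) (hq : q ∉ R) :
    ∃ N : Subgroup D, R ≤ N ∧ q ∉ N ∧ ∃ c : D, ∀ d : D, ∃ k : ℤ, (c ^ k)⁻¹ * d ∈ N := by
  have hq' : (q : D ⧸ R) ≠ 1 := fun h => hq ((QuotientGroup.eq_one_iff q).mp h)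
  obtain ⟨χ, hχ⟩ := CommGroup.exists_apply_ne_one_of_hasEnoughRootsOfUnity (D ⧸ R) ℂ hq'
  let ψ : D →* ℂˣ := χ.comp (QuotientGroup.mk' R)
  refine ⟨ψ.ker, ?_, ?_, ?_⟩
  · intro r hr
    show χ (QuotientGroup.mk' R r) = 1
    have e1 : QuotientGroup.mk' R r = 1 := (QuotientGroup.eq_one_iff r).mpr hr
    rw [e1, map_one]
  · intro h
    exact hχ h
  · haveI : Finite ψ.range := Finite.of_surjective ψ.rangeRestrict ψ.rangeRestrict_surjective
    obtain ⟨⟨g, hg⟩, hgen⟩ := (isCyclic_subgroup_units ψ.range).exists_generator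
    obtain ⟨c, hc⟩ := hg
    refine ⟨c, fun d => ?_⟩
    obtain ⟨k, hk⟩ := hgen ⟨ψ d, ⟨d, rfl⟩⟩
    refine ⟨k, ?_⟩
    have h1 : g ^ k = ψ d := congrArg Subtype.val hk
    show ψ ((c ^ k)⁻¹ * d) = 1
    rw [map_mul, map_inv, map_zpow, hc, h1, inv_mul_cancel]

variable {G : Type} [Group G]

/-- the criterion, only for the `N` with `γ₂/N` cyclic -/
def CritC {d : ℕ} (x : Fin d → G) : Prop :=
  ∀ N : Subgroup G, (∃ c : G, commutator G = Subgroup.zpowers c ⊔ N) → ∀ a : Fin d → ℤ,
    (∀ g : G, ⁅wd x a, g⁆ ∈ N) → ∀ (i : Fin d) (g : G), ⁅x i ^ a i, g⁆ ∈ N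

theorem crit_of_critC [Finite G] (hc : ∀ a b c : G, ⁅⁅a, b⁆, c⁆ = 1) {d : ℕ} (x : Fin d → G)
    (h : CritC x) : Crit hc x := by
  intro a j g
  have hD : commutator G ≤ Subgroup.center G := by
    rw [commutator_def, Subgroup.commutator_le]
    intro a _ b _
    exact comm_center hc a b
  letI : CommGroup (commutator G) :=
    { (inferInstance : Group (commutator G)) with
      mul_comm := fun u v => Subtype.ext
        ((Subgroup.mem_center_iff.mp (hD v.2)) u) }
  have hcomm : ∀ a b : G, ⁅a, b⁆ ∈ commutator G := fun a b =>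
    Subgroup.commutator_mem_commutator (Subgroup.mem_top _) (Subgroup.mem_top _)
  let ρ : G →* commutator G := MonoidHom.mk' (fun k => ⟨⁅wd x a, k⁆, hcomm _ _⟩) (by
    intro k l
    apply Subtype.ext
    have h1 := congrArg (fun w : Subgroup.center G => (w : G)) (map_mul (pr hc (wd x a)) k l)
    exact h1)
  let q : commutator G := ⟨⁅x j ^ a j, g⁆, hcomm _ _⟩
  have hq : q ∈ ρ.range := by
    by_contra hq
    obtain ⟨N, hRN, hqN, c, hcN⟩ := residual ρ.range q hq
    apply hqN
    have h1 := h (N.map (commutator G).subtype) ⟨(c : G), ?_⟩ a ?_ j g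
    · obtain ⟨n, hn, hnq⟩ := h1
      have : n = q := Subtype.ext hnq
      rwa [← this]
    · apply le_antisymm
      · intro d hd
        obtain ⟨k, hk⟩ := hcN ⟨d, hd⟩
        have e1 : d = (c : G) ^ k * (((c ^ k)⁻¹ * (⟨d, hd⟩ : commutator G) : commutator G) : G) := by
          rw [Subgroup.coe_mul, Subgroup.coe_inv, Subgroup.coe_zpow, mul_inv_cancel_left]
        rw [e1]
        refine mul_mem ((le_sup_left : _ ≤ Subgroup.zpowers (c : G) ⊔ _) ⟨k, rfl⟩)
          ((le_sup_right : _ ≤ Subgroup.zpowers (c : G) ⊔ _) ⟨_, hk, rfl⟩)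
      · rw [sup_le_iff, Subgroup.zpowers_le]
        refine ⟨c.2, ?_⟩
        rintro _ ⟨n, _, rfl⟩
        exact n.2
    · intro k
      exact ⟨ρ k, hRN ⟨k, rfl⟩, rfl⟩
  obtain ⟨k, hk⟩ := hq
  refine ⟨k, ?_⟩
  rw [← pr_wd, ← pr_zpow]
  apply Subtype.ext
  exact (congrArg Subtype.val hk).symm

/-- the criterion in class at most two -/
theorem attains_iff_critC [Finite G] (hc : ∀ a b c : G, ⁅⁅a, b⁆, c⁆ = 1) {d : ℕ}
    (x : Fin d → G) (hgen : Subgroup.closure (Set.range x) = ⊤) : Attains x ↔ CritC x := by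
  have hD : commutator G ≤ Subgroup.center G := by
    rw [commutator_def, Subgroup.commutator_le]
    intro a _ b _
    exact comm_center hc a b
  constructor
  · rintro hat N ⟨c, hcN⟩ a ha i g
    have hNle : N ≤ commutator G := by rw [hcN]; exact le_sup_right
    haveI : N.Normal := ⟨fun n hn g => by
      have h1 := Subgroup.mem_center_iff.mp (hD (hNle hn)) g
      rw [h1, mul_inv_cancel_right]
      exact hn⟩
    exact necessary x ((attains_iff x hgen).mp hat) N
      (fun a b c => by rw [hc a b c]; exact one_mem N) a ha i g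
  · intro h
    rw [attains_iff x hgen]
    exact surjP_of_crit hc x hgen (crit_of_critC hc x h)

theorem gen_quot {d : ℕ} (x : Fin d → G) (hgen : Subgroup.closure (Set.range x) = ⊤)
    (N : Subgroup G) [N.Normal] :
    Subgroup.closure (Set.range (fun i => (x i : G ⧸ N))) = ⊤ := by
  have e1 : Set.range (fun i => (x i : G ⧸ N)) = (QuotientGroup.mk' N) '' Set.range x :=
    Set.range_comp (QuotientGroup.mk' N) x
  rw [e1, ← MonoidHom.map_closure, hgen,
    Subgroup.map_top_of_surjective _ (QuotientGroup.mk'_surjective N)]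

theorem attains_quot [Finite G] {d : ℕ} (x : Fin d → G)
    (hgen : Subgroup.closure (Set.range x) = ⊤) (h : Attains x) (N : Subgroup G) [N.Normal] :
    Attains (fun i => (x i : G ⧸ N)) := by
  rw [attains_iff _ (gen_quot x hgen N)]
  exact surjP_quot ((attains_iff x hgen).mp h) N

/-- local-global principle in class at most two -/
theorem attains_iff_local [Finite G] (hc : ∀ a b c : G, ⁅⁅a, b⁆, c⁆ = 1) {d : ℕ}
    (x : Fin d → G) (hgen : Subgroup.closure (Set.range x) = ⊤) :
    Attains x ↔ ∀ (N : Subgroup G) [N.Normal], (∃ c : G, commutator G = Subgroup.zpowers c ⊔ N) →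
      Attains (fun i => (x i : G ⧸ N)) := by
  have hD : commutator G ≤ Subgroup.center G := by
    rw [commutator_def, Subgroup.commutator_le]
    intro a _ b _
    exact comm_center hc a b
  constructor
  · intro h N _ _
    exact attains_quot x hgen h N
  · intro h
    rw [attains_iff_critC hc x hgen]
    rintro N ⟨c, hcN⟩ a ha i g
    have hNle : N ≤ commutator G := by rw [hcN]; exact le_sup_right
    haveI : N.Normal := ⟨fun n hn g => by
      have h1 := Subgroup.mem_center_iff.mp (hD (hNle hn)) g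
      rw [h1, mul_inv_cancel_right]
      exact hn⟩
    have h1 := h N ⟨c, hcN⟩
    rw [attains_iff _ (gen_quot x hgen N)] at h1
    have hcQ : ∀ a b c : G ⧸ N, ⁅⁅a, b⁆, c⁆ ∈ (⊥ : Subgroup (G ⧸ N)) := by
      intro a b c
      obtain ⟨a, rfl⟩ := QuotientGroup.mk'_surjective N a
      obtain ⟨b, rfl⟩ := QuotientGroup.mk'_surjective N b
      obtain ⟨c, rfl⟩ := QuotientGroup.mk'_surjective N c
      rw [← map_commutatorElement, ← map_commutatorElement, hc, map_one]
      exact one_mem _
    have hw : wd (fun i => (x i : G ⧸ N)) a = QuotientGroup.mk' N (wd x a) := by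
      unfold wd
      rw [map_list_prod, List.map_ofFn]
      congr 1
    have h2 := necessary _ h1 ⊥ hcQ a (by
      intro q
      obtain ⟨q, rfl⟩ := QuotientGroup.mk'_surjective N q
      rw [hw, ← map_commutatorElement, Subgroup.mem_bot]
      exact (QuotientGroup.eq_one_iff _).mpr (ha q)) i (QuotientGroup.mk' N g)
    rw [Subgroup.mem_bot] at h2
    exact (QuotientGroup.eq_one_iff _).mp h2

end Pool.Agent.Helper832.AutC
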